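import Pool.Agent.H64.GG.Defs

set_option autoImplicit false

/-!
# MP_c65535_nt, good radicals, all degrees: targets, Galois theory and points
-/

namespace Pool.Agent.H64.GG

open NumberField Height Finset Polynomial Pool.Agent.H24.RD Pool.Agent.H23.RDD Pool.Agent.H29.RQ
  Pool.Agent.H29.SX Pool.Agent.H29.LG

/-! ## D. The levels -/

/-- DEGZ: the radicals stay independent over cyclotomic fields. -/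
def T_DEGZ : Prop := ∀ (r : ℕ) (a : Fin r → ℚ) (N : Fin r → ℕ), GoodLv a N → ∀ θ : Fin r → Om,
  (∀ i, θ i ^ N i = algebraMap ℚ Om (a i)) → ∀ m : ℕ, 0 < m →
  (∀ q : ℕ, q.Prime → q ∣ ∏ i, N i → ¬ q ^ 2 ∣ m) → Ind (CY m) θ N

/-- CYK: the primes which divide the discriminant of a subfield of a cyclotomic field, and the
ramification. -/
def T_CYK : Prop := ∀ (m : ℕ) (K : IntermediateField ℚ Om) [NumberField K], 0 < m → K ≤ CY m →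
  ∀ q : ℕ, q.Prime → ¬ q ∣ m → ¬ (q : ℤ) ∣ discr K ∧ Unr K q

/-- UNF: a prime which does not divide the levels is good for the radicals. -/
def T_UNF : Prop := ∀ (r : ℕ) (a : Fin r → ℚ) (N : Fin r → ℕ), GoodLv a N →
  ∀ (F : IntermediateField ℚ Om) [NumberField F] (γ : Fin r → F),
  (∀ i, (γ i : Om) ^ N i = algebraMap ℚ Om (a i)) → F = FT (fun i => (γ i : Om)) →
  ∀ p : ℕ, p.Prime → ¬ p ∣ ∏ i, N i → (∀ i, padicValRat p (a i) = 0) → GoodP F γ p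

/-- BRG: representations over `F` and over `ℚ`. -/
def T_BRG : Prop := ∀ (r : ℕ) (a : Fin r → ℚ) (N : Fin r → ℕ), GoodLv a N →
  ∀ (F : IntermediateField ℚ Om) [NumberField F] (γ : Fin r → F),
  (∀ i, (γ i : Om) ^ N i = algebraMap ℚ Om (a i)) → F = FT (fun i => (γ i : Om)) →
  Dv F Om γ = Dv ℚ Om a ∧ ∀ (m d : ℕ) (α : Om), 0 < m →
    (RepD F Om γ m 1 d α ↔ RepQ a (fun i => (γ i : Om)) m d α)

/-! ## E. Galois theory -/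

/-- REDP: the product of the conjugates which differ by a root of unity is reduced. -/
def T_REDP : Prop := ∀ (E : IntermediateField ℚ Om) (d : ℕ) (β : Om), β ≠ 0 →
  Cj ℚ Om E d β → ∃ (a d₁ k : ℕ) (β₁ : Om), 0 < a ∧ 0 < d₁ ∧ a * d₁ ≤ d ∧ β₁ ≠ 0 ∧ 0 < k ∧
    β₁ ^ k = (β ^ a) ^ k ∧ Cj ℚ Om E d₁ β₁ ∧ Red ℚ Om E β₁

/-- MINP: if the number of conjugates is minimal then the conjugates over `E` are conjugates over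
all the larger level fields whose level is prime to the `N i`. -/
def T_MINP : Prop := ∀ (r : ℕ) (a : Fin r → ℚ) (N : Fin r → ℕ) (θ : Fin r → Om) (m d : ℕ)
  (β g : Om) (E : IntermediateField ℚ Om), 0 < m → β ≠ 0 → E ≤ GF θ m → Cj ℚ Om E d β →
  Red ℚ Om E β → g ∈ Dv ℚ Om a →
  (∀ m₁ d₁ : ℕ, 0 < m₁ → (∀ i, m₁.Coprime (N i)) → RepQ a θ m₁ d₁ (β * g) → d ≤ d₁) →
  ∀ m₂ : ℕ, 0 < m₂ → m ∣ m₂ → (∀ i, m₂.Coprime (N i)) →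
  cc (GF θ m₂) β = d ∧ ∀ σ : Om ≃ₐ[ℚ] Om, (∀ z ∈ E, σ z = z) →
    ∃ τ : Om ≃ₐ[ℚ] Om, (∀ z ∈ GF θ m₂, τ z = z) ∧ τ β = σ β

/-- REM: removal of a few primes. -/
def T_REM : Prop := ∀ (r : ℕ) (N : Fin r → ℕ) (c : Fin r → ℚ) (θ : Fin r → Om) (β : Om) (m₂ : ℕ)
  (S : Finset ℕ), 0 < m₂ → (∀ i, 0 < N i) → (∀ i, θ i ^ N i = algebraMap ℚ Om (c i)) →
  (∀ p ∈ S, p.Prime ∧ ¬ p ∣ m₂) → Ind (CY (m₂ * ∏ p ∈ S, p)) θ N →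
  ∃ B ⊆ S, B.card ≤ Nat.log 2 (cc (GF θ m₂) β) ∧
    cc (GF θ (m₂ * ∏ p ∈ S \ B, p)) β = cc (GF θ m₂) β

/-- KAB: the abelian part. -/
def T_KAB : Prop := ∀ (F : IntermediateField ℚ Om) [NumberField F] (r : ℕ) (γ : Fin r → F) (m : ℕ),
  0 < m → F = FT (fun i => (γ i : Om)) → ∀ E : IntermediateField F Om, E ≤ Lv F Om γ m 1 →
  (∀ τ : Om ≃ₐ[F] Om, ∀ z ∈ E, τ z ∈ E) →
  ∃ K : IntermediateField ℚ Om, K ≤ CY m ∧ (∀ z ∈ K, z ∈ E) ∧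
    ∀ σ : Om ≃ₐ[ℚ] Om, (∀ z ∈ K, σ z = z) → (∀ i, σ (γ i : Om) = γ i) → ∀ z ∈ E, σ z = z

/-- RAMT: transfer of the bound for the ramification. -/
def T_RAMT : Prop := ∀ (F : IntermediateField ℚ Om) [NumberField F] (E : IntermediateField F Om)
  (K : IntermediateField ℚ Om) (p : ℕ) (δ : ℝ), p.Prime → 0 < δ → FiniteDimensional F E →
  FiniteDimensional ℚ K → (∀ z ∈ K, z ∈ E) → RamL F Om E p δ → RamL ℚ Om K p δ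

/-- CNJ: the conjugates over `K` are conjugates over a larger cyclotomic field. -/
def T_CNJ : Prop := ∀ (r : ℕ) (N : Fin r → ℕ) (c : Fin r → ℚ) (θ : Fin r → Om) (β : Om)
  (K : IntermediateField ℚ Om) (m₃ : ℕ), 0 < m₃ → (∀ i, 0 < N i) →
  (∀ i, θ i ^ N i = algebraMap ℚ Om (c i)) → (∀ i, c i ≠ 0) → K ≤ CY m₃ → Ind (CY m₃) θ N →
  (∀ σ : Om ≃ₐ[ℚ] Om, (∀ z ∈ K, σ z = z) → (∀ i, σ (θ i) = θ i) →
    ∃ τ : Om ≃ₐ[ℚ] Om, (∀ z ∈ CY m₃, τ z = z) ∧ (∀ i, τ (θ i) = θ i) ∧ τ β = σ β) →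
  SameC K (CY m₃) θ β

/-- STF: the reductions over the field of the radicals. -/
def T_STF : Prop := ∀ (r : ℕ) (a : Fin r → ℚ) (N : Fin r → ℕ), GoodLv a N → ∀ θ : Fin r → Om,
  (∀ i, θ i ^ N i = algebraMap ℚ Om (a i)) → ∀ (m d : ℕ) (α : Om), 0 < m → 0 < d →
  (∀ i, m.Coprime (N i)) → RepQ a θ m d α →
  ∀ P : Finset ℕ, (∀ p ∈ P, p.Prime ∧ (∀ i, padicValRat p (a i) = 0) ∧
    2 * Real.log (d * p) + 1 < ((p : ℝ) - 1) * Real.log p ∧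
    2 * d * (p : ℝ) ^ 2 * absLogHeight₁ α ≤ 1) →
  ∃ (m₀ k : ℕ) (K E : IntermediateField ℚ Om) (β g : Om) (x : Fin r → ℤ),
    0 < m₀ ∧ (∀ i, m₀.Coprime (N i)) ∧ K ≤ CY m₀ ∧ K ≤ E ∧ (∀ i, θ i ∈ E) ∧ E ≤ GF θ m₀ ∧
    β ≠ 0 ∧ g ≠ 0 ∧ α = β * g ∧ 0 < k ∧ g ^ k = ∏ i, θ i ^ x i ∧ (∀ i, 0 ≤ x i ∧ x i < k) ∧
    (∀ σ : Om ≃ₐ[ℚ] Om, (∀ z ∈ K, σ z = z) → (∀ i, σ (θ i) = θ i) → ∀ z ∈ E, σ z = z) ∧
    Cj ℚ Om E d β ∧ Red ℚ Om E β ∧ ∀ p ∈ P, RamL ℚ Om K p (dlt d p)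

/-- STG: all the reductions together. -/
def T_STG : Prop := ∀ (r : ℕ) (a : Fin r → ℚ) (N : Fin r → ℕ), GoodLv a N → ∀ θ : Fin r → Om,
  (∀ i, θ i ^ N i = algebraMap ℚ Om (a i)) → ∀ (m d : ℕ) (α : Om), 0 < m → 0 < d →
  (∀ i, m.Coprime (N i)) → RepQ a θ m d α →
  (∀ m₁ d₁ : ℕ, 0 < m₁ → (∀ i, m₁.Coprime (N i)) → RepQ a θ m₁ d₁ α → d ≤ d₁) →
  ∀ P : Finset ℕ, (∀ p ∈ P, p.Prime ∧ (∀ i, padicValRat p (a i) = 0) ∧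
    2 * Real.log (d * p) + 1 < ((p : ℝ) - 1) * Real.log p ∧
    2 * d * (p : ℝ) ^ 2 * absLogHeight₁ α ≤ 1) →
  ∃ (m₀ m₃ k : ℕ) (K : IntermediateField ℚ Om) (β g : Om) (x : Fin r → ℤ) (B : Finset ℕ),
    0 < m₀ ∧ 0 < m₃ ∧ m₀ ∣ m₃ ∧ (∀ i, m₀.Coprime (N i)) ∧ K ≤ CY m₀ ∧ β ≠ 0 ∧ g ≠ 0 ∧
    α = β * g ∧ 0 < k ∧ g ^ k = ∏ i, θ i ^ x i ∧ (∀ i, 0 ≤ x i ∧ x i < k) ∧
    (∃ X : Finset Om, X.card ≤ d ∧ ∀ σ : Om ≃ₐ[ℚ] Om, (∀ z ∈ K, σ z = z) →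
      (∀ i, σ (θ i) = θ i) → σ β ∈ X) ∧
    B.card ≤ Nat.log 2 d ∧ (∀ p ∈ P, p ∉ B → p ∣ m₃) ∧ Ind (CY m₃) θ N ∧
    SameC K (CY m₃) θ β ∧ ∀ p ∈ P, RamL ℚ Om K p (dlt d p)

/-! ## F. Points -/

/-- NRV: the norm. -/
def T_NRV : Prop := ∀ (r : ℕ) (lam : ℝ) (H ξ : Fin r → ℝ), 0 < lam → (∀ i, 0 < H i) →
  IsNm (nrmV r lam H ξ) ∧ ∀ (ρ : ℝ) (b : Fin (r + 1) → ℤ), nrmV r lam H ξ b ≤ ρ →
    |(b 0 : ℝ)| ≤ ρ / lam ∧ ∀ i, |(b i.succ : ℝ) - b 0 * ξ i| ≤ ρ / H i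

/-- CNV: lattice points in the balls. -/
def T_CNV : Prop := ∀ r : ℕ, ∃ c : ℝ, 0 < c ∧ ∀ (lam σ : ℝ) (H ξ : Fin r → ℝ),
  0 < lam → (∀ i, 0 < H i) → 0 < σ → ∃ S : Finset (Fin (r + 1) → ℤ),
  (∀ b ∈ S, nrmV r lam H ξ b ≤ σ) ∧ c * σ ^ (r + 1) / (lam * ∏ i, H i) ≤ S.card

/-- HTV: the height of a family of points. -/
def T_HTV : Prop := ∀ (M : IntermediateField ℚ Om) [NumberField M] (r : ℕ) (θ : Fin r → M) (β : M)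
  (g : Om) (k : ℕ) (x : Fin r → ℤ) (H : Fin r → ℝ), β ≠ 0 → (∀ i, θ i ≠ 0) → g ≠ 0 → 0 < k →
  g ^ k = ∏ i, (θ i : Om) ^ x i → 0 < absLogHeight₁ ((β : Om) * g) →
  (∀ i, 0 < H i ∧ absLogHeight₁ (θ i : Om) ≤ H i) →
  ∀ (ρ : ℝ) (T : ℕ) (b : Fin T → Fin (r + 1) → ℤ), 0 < T → 0 ≤ ρ →
  (∀ j, nrmV r (absLogHeight₁ ((β : Om) * g)) H (fun i => (x i : ℝ) / k) (b j) ≤ ρ) →
  logHeight (fun j => pt θ β (b j)) ≤ 2 * (r + 1) * ρ * Module.finrank ℚ M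

/-- GTP: a family of small monomials which generates the field. -/
def T_GTP : Prop := ∀ (K M : Type) [Field K] [Field M] [Algebra K M] (r : ℕ) (N : Fin r → ℕ)
  (c : Fin r → K) (θ : Fin r → M) (β : M) (d : ℕ), 0 < d → (∀ i, 0 < N i) → (∀ i, c i ≠ 0) →
  β ≠ 0 → (∀ i, θ i ^ N i = algebraMap K M (c i)) →
  IntermediateField.adjoin K (insert β (Set.range θ)) = ⊤ →
  (∃ f : (IntermediateField.adjoin K (Set.range θ))[X], f.Monic ∧ f.natDegree ≤ d ∧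
    aeval β f = 0) → ∀ e : ℕ → Fin r → ℤ,
  Submodule.span K {z : M | ∃ (i : ℕ) (j : Fin r → ℕ), i < d ∧ (∀ l, j l < N l) ∧
    z = β ^ i * ∏ l, θ l ^ (e i l + (j l : ℤ))} = ⊤

/-- TOR: the points are not roots of unity. -/
def T_TOR : Prop := ∀ (r : ℕ) (a : Fin r → ℚ) (N : Fin r → ℕ) (θ : Fin r → Om) (β g : Om),
  MInd ℚ a → (∀ i, 0 < N i) → (∀ i, θ i ^ N i = algebraMap ℚ Om (a i)) → β ≠ 0 →
  g ∈ Dv ℚ Om a → β * g ∉ Dv ℚ Om a → ∀ (b : Fin (r + 1) → ℤ) (k : ℕ), 0 < k →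
  pt θ β b ^ k = 1 → b = 0

/-- HRD: the height of a radical. -/
def T_HRD : Prop := ∀ (a : ℚ) (N : ℕ) (θ : Om), 0 < N → θ ^ N = algebraMap ℚ Om a →
  absLogHeight₁ θ ≤ BB a / N

end Pool.Agent.H64.GG
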