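import Pool.Agent.H64.GG.TA
import Pool.Agent.H64.GG.TB
import Pool.Agent.H26.REM.Targets4

set_option autoImplicit false

/-!
# MP_c65535_nt, good radicals, all degrees: targets, ranks, the inequality and the theorem
-/

namespace Pool.Agent.H64.GG

open NumberField Height Finset Polynomial Pool.Agent.H24.RD Pool.Agent.H23.RDD Pool.Agent.H29.RQ
  Pool.Agent.H29.SX Pool.Agent.H29.LG

/-! ## G. Ranks -/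

/-- FROG: the Frobenius substitutions of the subfields of cyclotomic fields. -/
def T_FROG : Prop := ∀ (K : IntermediateField ℚ Om) (m p : ℕ) (δ : ℝ), 0 < m → K ≤ CY m →
  p.Prime → 0 < δ → δ ≤ 1 → RamL ℚ Om K p δ → ∃ Φ : Om ≃ₐ[ℚ] Om, FrQ K p δ Φ

/-- JKD: the space of coefficients with vanishing jets has the same dimension over `K` and over a
larger field over which the point has the same conjugates. -/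
def T_JKD : Prop := ∀ (K L : IntermediateField ℚ Om) (r : ℕ) (θ : Fin r → Om) (β : Om), K ≤ L →
  SameC K L θ β → ∀ (t R : ℕ) (nn : Fin R → Fin (r + 1) → ℤ),
  Module.finrank K (JK K t (pt θ β) nn) = Module.finrank L (JK L t (pt θ β) nn)

/-- RLQ: a relation over the cyclotomic field. -/
def T_RLQ : Prop := ∀ (r : ℕ) (a : Fin r → ℚ) (N : Fin r → ℕ) (θ : Fin r → Om) (β : Om) (m₃ d : ℕ),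
  (∀ i, 0 < N i) → (∀ i, a i ≠ 0) → (∀ i, θ i ^ N i = algebraMap ℚ Om (a i)) → β ≠ 0 →
  0 < m₃ → (∃ X : Finset Om, X.card ≤ d ∧ ∀ σ : Om ≃ₐ[ℚ] Om, (∀ z ∈ CY m₃, σ z = z) →
      (∀ i, σ (θ i) = θ i) → σ β ∈ X) →
  ∀ S : Finset (Fin (r + 1) → ℤ), (∏ i, N i) * d < S.card →
  ∃ f : (Fin (r + 1) → ℤ) →₀ (CY m₃), f ≠ 0 ∧ (∀ b ∈ f.support, b ∈ S) ∧
    ev (CY m₃) (pt θ β) f = 0

/-- RNKG: the columns. -/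
def T_RNKG : Prop := ∀ (r : ℕ) (a : Fin r → ℚ) (N : Fin r → ℕ) (θ : Fin r → Om) (β g : Om)
  (m₃ d : ℕ), MInd ℚ a → (∀ i, 0 < N i) → (∀ i, θ i ^ N i = algebraMap ℚ Om (a i)) → β ≠ 0 →
  g ∈ Dv ℚ Om a → β * g ∉ Dv ℚ Om a → 0 < m₃ →
  (∃ X : Finset Om, X.card ≤ d ∧ ∀ σ : Om ≃ₐ[ℚ] Om, (∀ z ∈ CY m₃, σ z = z) →
      (∀ i, σ (θ i) = θ i) → σ β ∈ X) →
  ∀ (s t : ℕ) (pr : ℕ → ℕ) (Φ : ℕ → Om ≃ₐ[ℚ] Om), 1 ≤ t → (∀ x, Φ 0 x = x) → pr 0 = 1 →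
  (∀ c, 1 ≤ c → c ≤ s → (pr c).Prime ∧ 8 ≤ pr c ∧ pr c ∣ m₃) →
  (∀ c₁ c₂, 1 ≤ c₁ → c₁ < c₂ → c₂ ≤ s → pr c₁ < pr c₂) →
  ∀ (lam : ℝ) (H ξ : Fin r → ℝ), 0 < lam → (∀ i, 0 < H i) → ∀ Q ρ σ : ℝ, 1 ≤ Q → 0 ≤ σ →
  (∀ c, 1 ≤ c → c ≤ s → (pr c : ℝ) ≤ Q) → 64 * (t + s) * (r + 2) * Q ^ (r + 1) * σ ≤ ρ →
  ∀ S : Finset (Fin (r + 1) → ℤ), (∀ b ∈ S, nrmV r lam H ξ b ≤ σ) → (∏ i, N i) * d < S.card →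
  ∃ (R d0 r0 : ℕ) (nn : Fin R → Fin (r + 1) → ℤ), 1 ≤ r0 ∧ d0 ≤ t ^ (r + 1) * r0 ∧
    d0 + s * r0 ≤ R ∧ Function.Injective nn ∧ (∀ j, nrmV r lam H ξ (nn j) ≤ ρ) ∧
    Cols (CY m₃) t s d0 (yl ℚ Om Φ pr θ β) nn

/-! ## H. The inequality -/

/-- INA: the inequality, abstract form. -/
def T_INA : Prop := ∀ (K M : Type) [Field K] [NumberField K] [Field M] [NumberField M] [Algebra K M]
  (r : ℕ) (a : Fin r → ℚ) (N : Fin r → ℕ) (θ : Fin r → M) (β : M), GoodLv a N →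
  (∀ i, θ i ^ N i = algebraMap ℚ M (a i)) → Ind K θ N → β ≠ 0 →
  (∀ q : ℕ, q.Prime → q ∣ ∏ i, N i → ¬ (q : ℤ) ∣ discr K ∧ Unr K q) →
  ∀ (s t R T : ℕ) (pr : Fin s → ℕ) (φ : Fin s → K ≃+* K) (δ : Fin s → ℝ),
  (∀ c, (pr c).Prime ∧ (∀ i, padicValRat (pr c) (a i) = 0) ∧ 0 < δ c ∧ δ c ≤ 1 ∧
    ∀ w : FinitePlace M, w.1 (pr c : M) < 1 → ∀ x : K, w.1 (algebraMap K M x) ≤ 1 →
      w.1 (algebraMap K M (φ c x)) ≤ 1 ∧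
      w.1 (algebraMap K M (φ c x - x ^ pr c)) ≤ w.1 (pr c : M) ^ δ c) →
  ∀ (nn : Fin R → Fin (r + 1) → ℤ) (G : Fin T → M), 0 < R → (∀ j, G j ≠ 0) →
  Submodule.span K (Set.range G) = ⊤ →
  (∀ x ∈ JK K t (pt θ β) nn,
    (∀ c, ∑ j, algebraMap K M (φ c (x j)) * pt θ β (nn j) ^ pr c = 0) → x = 0) →
  ∀ (dJ : ℕ) (X₀ h₀ η Q G₀ : ℝ), R ≤ dJ + Module.finrank K (JK K t (pt θ β) nn) → dJ ≤ R →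
  1 ≤ X₀ → (∀ j, |(nn j 0 : ℝ)| ≤ X₀) → (∀ j i, |(nn j i.succ : ℝ)| ≤ N i * X₀) →
  logHeight (fun j => pt θ β (nn j)) ≤ h₀ * Module.finrank ℚ M →
  logHeight G ≤ η * Module.finrank ℚ M → (∀ c, (pr c : ℝ) ≤ Q) →
  (∀ c, G₀ ≤ δ c * Real.log (pr c)) → 0 ≤ t * G₀ - Q * h₀ →
  ((R : ℝ) - dJ) * (t * G₀ - Q * h₀) ≤
    R * (Real.log ((t ^ (r + 1) + s) * (Module.finrank K M / ∏ i, N i)) / 2 + η) +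
    dJ * (t * Real.log X₀ + h₀)

/-- INQ: the inequality. -/
def T_INQ : Prop := ∀ (r : ℕ) (a : Fin r → ℚ) (N : Fin r → ℕ), GoodLv a N → ∀ θ : Fin r → Om,
  (∀ i, θ i ^ N i = algebraMap ℚ Om (a i)) →
  ∀ (m₀ m₃ d k : ℕ) (K : IntermediateField ℚ Om) (β g : Om) (x : Fin r → ℤ), 0 < m₀ → 0 < m₃ →
  m₀ ∣ m₃ → (∀ i, m₀.Coprime (N i)) → K ≤ CY m₀ → 0 < d → β ≠ 0 → g ≠ 0 → 0 < k →
  g ^ k = ∏ i, θ i ^ x i → (∀ i, 0 ≤ x i ∧ x i < k) →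
  (∃ X : Finset Om, X.card ≤ d ∧ ∀ σ : Om ≃ₐ[ℚ] Om, (∀ z ∈ K, σ z = z) →
      (∀ i, σ (θ i) = θ i) → σ β ∈ X) →
  Ind (CY m₃) θ N → SameC K (CY m₃) θ β → 0 < absLogHeight₁ (β * g) →
  ∀ (s t R d0 : ℕ) (pr : ℕ → ℕ) (Φ : ℕ → Om ≃ₐ[ℚ] Om) (δ : ℕ → ℝ), 1 ≤ t → (∀ x, Φ 0 x = x) →
  pr 0 = 1 → (∀ c, 1 ≤ c → c ≤ s → (pr c).Prime ∧ (∀ i, padicValRat (pr c) (a i) = 0) ∧
    0 < δ c ∧ δ c ≤ 1 ∧ FrQ K (pr c) (δ c) (Φ c)) →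
  ∀ (nn : Fin R → Fin (r + 1) → ℤ) (Q ρ G₀ : ℝ), 0 < R → d0 ≤ R → 0 ≤ ρ → ρ ≤ 1 → 1 ≤ Q →
  (∀ j, nrmV r (absLogHeight₁ (β * g)) (fun i => BB (a i) / N i) (fun i => (x i : ℝ) / k)
    (nn j) ≤ ρ) → Cols (CY m₃) t s d0 (yl ℚ Om Φ pr θ β) nn →
  (∀ c, 1 ≤ c → c ≤ s → (pr c : ℝ) ≤ Q ∧ G₀ ≤ δ c * Real.log (pr c)) →
  0 ≤ t * G₀ - Q * (2 * (r + 1) * ρ) →
  ((R : ℝ) - d0) * (t * G₀ - Q * (2 * (r + 1) * ρ)) ≤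
    R * (Real.log ((t ^ (r + 1) + s) * d) / 2 +
      2 * (r + 1) * (d * absLogHeight₁ (β * g) + ∑ i, BB (a i))) +
    d0 * (t * Real.log (1 + ρ / absLogHeight₁ (β * g)) + 2 * (r + 1) * ρ)

/-- NUG: choice of the parameters. -/
def T_NUG : Prop := ∀ (r CP Y0 : ℕ) (B c₃ : ℝ), 1 ≤ B → 0 < c₃ →
  ∃ (c : ℝ) (C : ℕ), 0 < c ∧ ∀ (d : ℕ) (lam : ℝ), 0 < d → 0 < lam →
  lam * d * (Real.log (3 * d)) ^ C < c →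
  ∃ (s t A n : ℕ) (σ ρ Q G₀ : ℝ), 1 ≤ s ∧ 1 ≤ t ∧ 0 < σ ∧ 0 < ρ ∧ ρ ≤ 1 ∧ 1 ≤ Q ∧ Y0 ≤ A ∧ 8 ≤ A ∧
    s + Nat.log 2 d ≤ n ∧
    (∀ p : ℕ, A < p → p ≤ CP * (A + n + 1) ^ 2 →
      2 * Real.log (d * p) + 1 < ((p : ℝ) - 1) * Real.log p ∧ 2 * d * (p : ℝ) ^ 2 * lam ≤ 1 ∧
      (p : ℝ) ≤ Q ∧ G₀ ≤ dlt d p * Real.log p) ∧
    64 * (t + s) * (r + 2) * Q ^ (r + 1) * σ ≤ ρ ∧ (d : ℝ) < c₃ * σ ^ (r + 1) / lam ∧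
    0 ≤ t * G₀ - Q * (2 * (r + 1) * ρ) ∧
    ∀ R d0 r0 : ℕ, 1 ≤ r0 → d0 ≤ t ^ (r + 1) * r0 → d0 + s * r0 ≤ R →
      R * (Real.log ((t ^ (r + 1) + s) * d) / 2 + 2 * (r + 1) * (d * lam + B)) +
        d0 * (t * Real.log (1 + ρ / lam) + 2 * (r + 1) * ρ) <
      ((R : ℝ) - d0) * (t * G₀ - Q * (2 * (r + 1) * ρ))

/-! ## I. The theorem -/

/-- LVR: the theorem over the level fields, reduced numbers, minimal degree. -/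
def T_LVR : Prop := ∀ (r : ℕ) (a : Fin r → ℚ), MInd ℚ a → ∃ (c : ℝ) (C : ℕ), 0 < c ∧
  ∀ N : Fin r → ℕ, GoodLv a N → ∀ θ : Fin r → Om, (∀ i, θ i ^ N i = algebraMap ℚ Om (a i)) →
  ∀ (m d : ℕ) (α : Om), 0 < m → 0 < d → (∀ i, m.Coprime (N i)) → RepQ a θ m d α →
  α ∉ Dv ℚ Om a → c ≤ absLogHeight₁ α * d * (Real.log (3 * d)) ^ C

/-- LVN: the same for numbers which are not reduced. -/
def T_LVN : Prop := ∀ (r : ℕ) (a : Fin r → ℚ), MInd ℚ a → ∃ (c : ℝ) (C : ℕ), 0 < c ∧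
  ∀ N : Fin r → ℕ, GoodLv a N → ∀ θ : Fin r → Om, (∀ i, θ i ^ N i = algebraMap ℚ Om (a i)) →
  ∀ (m d : ℕ) (β g : Om), 0 < m → 0 < d → (∀ i, m.Coprime (N i)) → β ≠ 0 →
  Cj ℚ Om (GF θ m) d β → g ∈ Dv ℚ Om a → β * g ∉ Dv ℚ Om a →
  c ≤ absLogHeight₁ (β * g) * d * (Real.log (3 * d)) ^ C

/-- MAING: the result. -/
def T_MAING : Prop := ∀ (r : ℕ) (a : Fin r → ℚ), (∀ i, a i ≠ 0) →
  (∀ x : Fin r → ℤ, ∏ i, a i ^ x i = 1 → x = 0) → ∃ (c : ℝ) (C : ℕ), 0 < c ∧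
  ∀ (m : ℕ) (N : Fin r → ℕ), 0 < m → (∀ i, 0 < N i) → (∀ i, m.Coprime (N i)) →
  (∀ i j, i ≠ j → (N i).Coprime (N j)) →
  (∀ (i : Fin r) (q : ℕ), q.Prime → q ∣ N i → ∀ j, padicValRat q (a j) = 0) →
  (∀ (i : Fin r) (q : ℕ), q.Prime → q ∣ N i → padicValRat q (a i ^ (q - 1) - 1) = 1) →
  ∀ θ : Fin r → AlgebraicClosure ℚ, (∀ i, θ i ^ N i = algebraMap ℚ (AlgebraicClosure ℚ) (a i)) →
  ∀ M : IntermediateField ℚ (AlgebraicClosure ℚ),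
  M = IntermediateField.adjoin ℚ ({z | z ^ m = 1} ∪ Set.range θ) →
  ∀ β γ : AlgebraicClosure ℚ,
  (∃ n : ℕ, 0 < n ∧ ∃ x : Fin r → ℤ, γ ^ n = ∏ i, algebraMap ℚ (AlgebraicClosure ℚ) (a i) ^ x i) →
  β * γ ≠ 0 → (¬ ∃ n : ℕ, 0 < n ∧ ∃ x : Fin r → ℤ,
    (β * γ) ^ n = ∏ i, algebraMap ℚ (AlgebraicClosure ℚ) (a i) ^ x i) →
  c ≤ absLogHeight₁ (β * γ) * Module.finrank M (IntermediateField.adjoin M {β}) *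
    (Real.log (3 * Module.finrank M (IntermediateField.adjoin M {β}))) ^ C

end Pool.Agent.H64.GG
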