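import Pool.Agent.H64.GG.FPL
import Pool.Agent.H64.GG.TC

set_option autoImplicit false

/-!
# (INA) the inequality, abstract form
-/

namespace Pool.Agent.H64.GG

open NumberField Height Finset Polynomial Pool.Agent.H24.RD Pool.Agent.H23.RDD Pool.Agent.H29.RQ
  Pool.Agent.H29.SX Pool.Agent.H29.LG

/-- A sorted enumeration of the jets. -/
theorem jets_enum (r t : ℕ) : ∃ (k : ℕ) (e : Fin k → (Fin (r + 1) → ℕ)), k ≤ t ^ (r + 1) ∧
    (∀ b, ∑ i, e b i < t) ∧ (∀ κ : Fin (r + 1) → ℕ, ∑ i, κ i < t → ∃ b, e b = κ) ∧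
    ∀ b b' : Fin k, (∑ i, e b i < ∑ i, e b' i ∨
      (∑ i, e b i = ∑ i, e b' i ∧ e b' 0 < e b 0)) → b < b' := by
  classical
  set J : Finset (Fin (r + 1) → ℕ) :=
    (Fintype.piFinset fun _ : Fin (r + 1) => range t).filter fun κ => ∑ i, κ i < t with hJ
  let e0 : Fin J.card ≃ J := J.equivFin.symm
  let key : (Fin (r + 1) → ℕ) → ℕ := fun κ => (∑ i, κ i) * (t + 1) + (t - κ 0)
  let f : Fin J.card → ℕ := fun b => key (e0 b).1
  let σ := Tuple.sort f
  have hmono : Monotone (f ∘ σ) := Tuple.monotone_sort f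
  refine ⟨J.card, fun b => (e0 (σ b)).1, ?_, ?_, ?_, ?_⟩
  · refine (Finset.card_filter_le _ _).trans ?_
    rw [Fintype.card_piFinset_const, card_range]
  · intro b
    exact (Finset.mem_filter.1 (e0 (σ b)).2).2
  · intro κ hκ
    have hmem : κ ∈ J := by
      rw [hJ, Finset.mem_filter]
      refine ⟨Fintype.mem_piFinset.2 fun i => mem_range.2 ?_, hκ⟩
      exact (Finset.single_le_sum (f := κ) (fun _ _ => Nat.zero_le _) (mem_univ i)).trans_lt hκ
    refine ⟨σ.symm (e0.symm ⟨κ, hmem⟩), ?_⟩
    simp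
  · intro b b' h
    have h0 : ∀ b : Fin J.card, (e0 (σ b)).1 0 < t := fun b =>
      (Finset.single_le_sum (f := (e0 (σ b)).1) (fun _ _ => Nat.zero_le _)
        (mem_univ 0)).trans_lt (Finset.mem_filter.1 (e0 (σ b)).2).2
    by_contra hcon
    have hle : key (e0 (σ b')).1 ≤ key (e0 (σ b)).1 := hmono (not_lt.1 hcon)
    simp only [key] at hle
    rcases h with h | ⟨h1, h2⟩
    · have : (∑ i, (e0 (σ b)).1 i + 1) * (t + 1) ≤ (∑ i, (e0 (σ b')).1 i) * (t + 1) :=
        Nat.mul_le_mul_right _ h
      have h3 : t - (e0 (σ b)).1 0 ≤ t := Nat.sub_le _ _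
      nlinarith
    · have h1' : ∑ i, (e0 (σ b)).1 i = ∑ i, (e0 (σ b')).1 i := h1
      have h2' : (e0 (σ b')).1 0 < (e0 (σ b)).1 0 := h2
      rw [h1'] at hle
      have := h0 b
      have := h0 b'
      omega

/-- Good levels are good. -/
theorem good_of (a : ℚ) (ha : a ≠ 0) (q : ℕ) (hq : q.Prime) (h0 : padicValRat q a = 0)
    (h1 : padicValRat q (a ^ (q - 1) - 1) = 1) : Pool.Agent.H26.REM.Good q a := by
  have : Fact q.Prime := ⟨hq⟩
  refine Or.inr ⟨h0, ?_⟩
  intro hdvd
  have hden0 : (a.den : ℚ) ≠ 0 := by exact_mod_cast a.den_nz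
  have hnum0 : a.num ≠ 0 := Rat.num_ne_zero.2 ha
  have hval : padicValRat q a = padicValInt q a.num - padicValNat q a.den := by
    rw [padicValRat]
  -- the denominator is prime to `q`
  have hqden : ¬ q ∣ a.den := by
    intro hd
    have h2 : ¬ (q : ℤ) ∣ a.num := by
      intro hn
      have hc := a.reduced
      have : q ∣ Nat.gcd a.num.natAbs a.den := Nat.dvd_gcd (Int.natCast_dvd.1 hn) hd
      rw [Nat.Coprime] at hc
      rw [hc] at this
      exact hq.one_lt.ne' (Nat.dvd_one.1 this)
    have h3 : padicValInt q a.num = 0 := by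
      rw [padicValInt]
      exact padicValNat.eq_zero_of_not_dvd fun h => h2 (Int.natCast_dvd.2 h)
    have h4 : 1 ≤ padicValNat q a.den := by
      exact one_le_padicValNat_of_dvd a.den_nz hd
    rw [hval, h3] at h0
    omega
  have hden : padicValRat q ((a.den : ℚ) ^ (q - 1)) = 0 := by
    rw [padicValRat.pow, padicValRat.of_nat, padicValNat.eq_zero_of_not_dvd hqden]
    simp
  set z : ℤ := a.num ^ (q - 1) - (a.den : ℤ) ^ (q - 1) with hz
  have hz0 : z ≠ 0 := by
    intro h
    have h5 : a ^ (q - 1) - 1 = 0 := by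
      have h6 : (a.num : ℚ) ^ (q - 1) = (a.den : ℚ) ^ (q - 1) := by
        have : (z : ℚ) = 0 := by rw [h]; simp
        rw [hz] at this
        push_cast at this
        linarith
      rw [← Rat.num_div_den a, div_pow, h6, div_self (pow_ne_zero _ hden0), sub_self]
    rw [h5] at h1
    simp at h1
  have h6 : a ^ (q - 1) - 1 = (z : ℚ) / (a.den : ℚ) ^ (q - 1) := by
    rw [eq_div_iff (pow_ne_zero _ hden0), sub_mul, one_mul, hz]
    push_cast
    have : a ^ (q - 1) * (a.den : ℚ) ^ (q - 1) = (a.num : ℚ) ^ (q - 1) := by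
      rw [← mul_pow, Rat.mul_den_eq_num]
    rw [this]
  rw [h6, padicValRat.div (by exact_mod_cast hz0) (pow_ne_zero _ hden0), hden, sub_zero,
    padicValRat.of_int] at h1
  have h7 : 2 ≤ padicValInt q z := by
    rw [padicValInt]
    have h8 : q ^ 2 ∣ z.natAbs := by
      have : ((q ^ 2 : ℕ) : ℤ) ∣ z := by exact_mod_cast hdvd
      exact Int.natCast_dvd.1 this
    exact (padicValNat_dvd_iff_le (Int.natAbs_ne_zero.2 hz0)).1 h8
  omega

theorem ciSup_ge {ι : Type} [Finite ι] (f : ι → ℝ) (i : ι) : f i ≤ ⨆ l, f l :=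
  le_ciSup (Set.finite_range f).bddAbove i

open Pool.Agent.H26.REM (EE KerB) in
theorem pf_INA (hGI : Pool.Agent.H26.REM.T_GI) (hDSK : Pool.Agent.H26.REM.T_DSK)
    (hCIQ : T_CIQ) (hCIP : T_CIP) : T_INA := by
  classical
  intro K M _ _ _ _ _ r a N θ β hG hpow hInd hβ hq s t R T pr φ δ hpr nn G hR hGne hspan hinj
    dJ X₀ h₀ η Q G₀ hdJ hdJR hX₀ hn0 hni hh₀ hη hQ hG₀ hpos
  obtain ⟨k₁, e, hk₁, he_lt, he_surj, he_ord⟩ := jets_enum r t
  have hθ0 : ∀ i, θ i ≠ 0 := by
    intro i h
    have h1 := hpow i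
    rw [h, zero_pow (hG.pos i).ne'] at h1
    exact hG.nz i ((map_eq_zero (algebraMap ℚ M)).1 h1.symm)
  have hpt0 : ∀ b, pt θ β b ≠ 0 := by
    intro b
    rw [pt]
    exact mul_ne_zero (zpow_ne_zero _ hβ) (Finset.prod_ne_zero_iff.2 fun i _ =>
      zpow_ne_zero _ (hθ0 i))
  have hNpos : ∀ i, (0 : ℝ) < N i := fun i => by exact_mod_cast hG.pos i
  have hNM : ∀ i, ((N i : ℕ) : M) ≠ 0 := fun i => by exact_mod_cast (hG.pos i).ne'
  have hX₀pos : 0 < X₀ := by linarith
  have : Nonempty (Fin R) := ⟨⟨0, hR⟩⟩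
  let φB : Fin (k₁ + s) → (K ≃+* K) := Fin.append (fun _ => RingEquiv.refl K) φ
  let YB : Fin (k₁ + s) → Fin R → M :=
    Fin.append (fun b j => jc M (e b) (nn j) * pt θ β (nn j)) (fun c j => pt θ β (nn j) ^ pr c)
  let ZB : Fin (k₁ + s) → Fin R → M :=
    Fin.append (fun _ j => pt θ β (nn j)) (fun c j => pt θ β (nn j) ^ pr c)
  let XB : Fin (k₁ + s) → ℝ :=
    Fin.append (fun b => X₀ ^ (e b 0) * ∏ i, ((N i : ℝ) * X₀) ^ (e b i.succ)) (fun _ => 1)
  let ϖB : Fin (k₁ + s) → FinitePlace M → ℝ :=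
    Fin.append (fun b v => ∏ i, v.1 ((N i : ℕ) : M) ^ (e b i.succ))
      (fun c v => v.1 (pr c : M) ^ ((t : ℝ) * δ c))
  have hprM : ∀ c, ((pr c : ℕ) : M) ≠ 0 := fun c => by
    exact_mod_cast (hpr c).1.pos.ne'
  -- the values of the blocks
  have hEJ : ∀ (x : Fin R → K) (b : Fin k₁), EE φB YB x (Fin.castAdd s b) = JL θ β nn (e b) x := by
    intro x b
    change ∑ j, algebraMap K M (φB (Fin.castAdd s b) (x j)) * YB (Fin.castAdd s b) j = _
    simp only [φB, YB, Fin.append_left, JL, RingEquiv.refl_apply]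
  have hEV : ∀ (x : Fin R → K) (c : Fin s), EE φB YB x (Fin.natAdd k₁ c) =
      ∑ j, algebraMap K M (φ c (x j)) * pt θ β (nn j) ^ pr c := by
    intro x c
    change ∑ j, algebraMap K M (φB (Fin.natAdd k₁ c) (x j)) * YB (Fin.natAdd k₁ c) j = _
    simp only [φB, YB, Fin.append_right]
  have hJK : ∀ x : Fin R → K, x ∈ JK K t (pt θ β) nn ↔
      ∀ b : Fin k₁, EE φB YB x (Fin.castAdd s b) = 0 := by
    intro x
    constructor
    · intro hx b
      rw [hEJ]
      exact hx (e b) (he_lt b)
    · intro hx κ hκ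
      obtain ⟨b, rfl⟩ := he_surj κ hκ
      have := hx b
      rw [hEJ] at this
      exact this
  have hinj' : ∀ x : Fin R → K, EE φB YB x = 0 → x = 0 := by
    intro x hx
    refine hinj x ((hJK x).2 fun b => by rw [hx]; rfl) fun c => ?_
    rw [← hEV, hx]
    rfl
  have hint : ∀ (x : Fin R → 𝓞 K) (j : Fin R), IsIntegral ℤ ((x j : K)) := fun x j => (x j).2
  have hmain := hGI K M (k₁ + s) R φB YB (fun _ => Fin R) ZB XB ϖB (Fin T) G hGne hspan
    (by
      intro b h
      have h1 := congrFun h ⟨0, hR⟩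
      revert h1
      refine Fin.addCases (fun b => ?_) (fun c => ?_) b
      · simp only [ZB, Fin.append_left, Pi.zero_apply]
        exact hpt0 _
      · simp only [ZB, Fin.append_right, Pi.zero_apply]
        exact pow_ne_zero _ (hpt0 _))
    (by
      refine Fin.addCases (fun b => ?_) (fun c => ?_)
      · simp only [XB, Fin.append_left]
        exact mul_pos (pow_pos hX₀pos _) (Finset.prod_pos fun i _ =>
          pow_pos (mul_pos (hNpos i) hX₀pos) _)
      · simp only [XB, Fin.append_right]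
        exact one_pos)
    (by
      refine Fin.addCases (fun b => ?_) (fun c => ?_)
      · intro v
        simp only [ϖB, Fin.append_left]
        exact Finset.prod_pos fun i _ => pow_pos (v.1.pos (hNM i)) _
      · intro v
        simp only [ϖB, Fin.append_right]
        exact Real.rpow_pos_of_pos (v.1.pos (hprM c)) _)
    (by
      refine Fin.addCases (fun b => ?_) (fun c => ?_)
      · refine Set.Finite.subset (Set.Finite.biUnion (Set.finite_univ (α := Fin r))
          fun i _ => (FinitePlace.hasFiniteMulSupport (hNM i) :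
            (Function.mulSupport fun v : FinitePlace M => v ((N i : ℕ) : M)).Finite)) ?_
        intro v hv
        simp only [ϖB, Fin.append_left, Set.mem_ofPred_eq] at hv
        by_contra hcon
        apply hv
        refine Finset.prod_eq_one fun i _ => ?_
        have h1 : v.1 ((N i : ℕ) : M) = 1 := by
          by_contra h2
          exact hcon (Set.mem_biUnion (Set.mem_univ i) h2)
        rw [h1, one_pow]
      · refine Set.Finite.subset (FinitePlace.hasFiniteMulSupport (hprM c) :
          (Function.mulSupport fun v : FinitePlace M => v ((pr c : ℕ) : M)).Finite) ?_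
        intro v hv
        simp only [ϖB, Fin.append_right, Set.mem_ofPred_eq] at hv
        intro h1
        apply hv
        have h2 : v.1 ((pr c : ℕ) : M) = 1 := h1
        rw [h2, Real.one_rpow])
    (by
      refine Fin.addCases (fun b => ?_) (fun c => ?_)
      · intro j σ
        simp only [YB, ZB, XB, Fin.append_left]
        rw [map_mul, norm_mul]
        refine mul_le_mul ?_ (ciSup_ge (fun l => ‖σ (pt θ β (nn l))‖) j) (norm_nonneg _) ?_
        · rw [jc, map_prod, norm_prod, Fin.prod_univ_succ]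
          refine mul_le_mul ?_ ?_ (Finset.prod_nonneg fun _ _ => norm_nonneg _)
            (pow_nonneg hX₀pos.le _)
          · rw [map_pow, norm_pow, map_intCast]
            refine pow_le_pow_left₀ (norm_nonneg _) ?_ _
            rw [Complex.norm_intCast]
            exact hn0 j
          · refine Finset.prod_le_prod (fun _ _ => norm_nonneg _) fun i _ => ?_
            rw [map_pow, norm_pow, map_intCast]
            refine pow_le_pow_left₀ (norm_nonneg _) ?_ _
            rw [Complex.norm_intCast]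
            exact hni j i
        · exact mul_nonneg (pow_nonneg hX₀pos.le _) (Finset.prod_nonneg fun i _ =>
            pow_nonneg (mul_nonneg (hNpos i).le hX₀pos.le) _)
      · intro j σ
        simp only [YB, ZB, XB, Fin.append_right]
        rw [one_mul]
        exact ciSup_ge (fun l => ‖σ (pt θ β (nn l) ^ pr c)‖) j)
    (by
      refine Fin.addCases (fun b => ?_) (fun c => ?_)
      · intro x hx v
        rw [hEJ]
        simp only [ZB, ϖB, Fin.append_left]
        set y : Fin R → K := fun j => (x j : K) with hy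
        have hy1 : ∀ j, v.1 (algebraMap K M (y j)) ≤ 1 := fun j =>
          fp_integral v _ ((hint x j).map (algebraMap K M).toIntAlgHom)
        have hB : ∀ j, v.1 (pt θ β (nn j)) ≤ ⨆ l, v.1 (pt θ β (nn l)) := fun j =>
          ciSup_ge (fun l => v.1 (pt θ β (nn l))) j
        have hBpos : 0 < ⨆ l, v.1 (pt θ β (nn l)) :=
          (v.1.pos (hpt0 (nn ⟨0, hR⟩))).trans_le (hB ⟨0, hR⟩)
        have hbefore : ∀ b' : Fin k₁, b' < b → JL θ β nn (e b') y = 0 := by
          intro b' hb'
          rw [← hEJ]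
          refine hx (Fin.castAdd s b') ?_
          rw [Fin.lt_def]
          simp only [Fin.val_castAdd]
          exact hb'
        by_cases hv : ∀ i, v.1 ((N i : ℕ) : M) = 1
        · have h1 : ∏ i, v.1 ((N i : ℕ) : M) ^ (e b i.succ) = 1 :=
            Finset.prod_eq_one fun i _ => by rw [hv i, one_pow]
          rw [h1, one_mul, JL]
          refine fp_sum_le v _ _ _ hBpos.le fun j _ => ?_
          rw [map_mul, map_mul]
          have h2 : v.1 (jc M (e b) (nn j)) ≤ 1 := by
            rw [jc, map_prod]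
            refine Finset.prod_le_one (fun _ _ => apply_nonneg _ _) fun i _ => ?_
            rw [map_pow]
            exact pow_le_one₀ (apply_nonneg _ _) (fp_int_le v _)
          calc v.1 (algebraMap K M (y j)) * (v.1 (jc M (e b) (nn j)) * v.1 (pt θ β (nn j)))
              ≤ 1 * (1 * v.1 (pt θ β (nn j))) :=
                mul_le_mul (hy1 j) (mul_le_mul_of_nonneg_right h2 (apply_nonneg _ _))
                  (mul_nonneg (apply_nonneg _ _) (apply_nonneg _ _)) one_pos.le
            _ = v.1 (pt θ β (nn j)) := by ring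
            _ ≤ _ := hB j
        · push Not at hv
          obtain ⟨i, hi⟩ := hv
          obtain ⟨q, hqp, hqi, hvq⟩ := fp_prime v (N i) (hG.pos i) hi
          have hL : LocD K M a N θ q := ⟨hG, hpow, hInd, hqp, hG.unit i q hqp hqi,
            fun h => (hq q hqp h).2⟩
          refine hCIQ K M r a N θ q hL β hβ v hvq R nn y hy1 (e b) ?_ ?_ _ hBpos hB
          · intro κ' hκ'
            obtain ⟨b', rfl⟩ := he_surj κ' (hκ'.trans (he_lt b))
            exact hbefore b' (he_ord b' b (Or.inl hκ'))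
          · intro κ' hκ' h0
            obtain ⟨b', rfl⟩ := he_surj κ' (hκ'.trans_lt (he_lt b))
            exact hbefore b' (he_ord b' b (Or.inr ⟨hκ', h0⟩))
      · intro x hx v
        rw [hEV]
        simp only [ZB, ϖB, Fin.append_right]
        set y : Fin R → K := fun j => (x j : K) with hy
        have hy1 : ∀ j, v.1 (algebraMap K M (y j)) ≤ 1 := fun j =>
          fp_integral v _ ((hint x j).map (algebraMap K M).toIntAlgHom)
        have hy2 : ∀ j, v.1 (algebraMap K M (φ c (y j))) ≤ 1 := fun j =>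
          fp_integral v _ (((hint x j).map (φ c : K →+* K).toIntAlgHom).map (algebraMap K M).toIntAlgHom)
        have hjets : ∀ κ : Fin (r + 1) → ℕ, ∑ i, κ i < t → JL θ β nn κ y = 0 := by
          intro κ hκ
          obtain ⟨b', rfl⟩ := he_surj κ hκ
          rw [← hEJ]
          refine hx (Fin.castAdd s b') ?_
          rw [Fin.lt_def]
          simp only [Fin.val_castAdd, Fin.val_natAdd]
          omega
        by_cases hv : v.1 ((pr c : ℕ) : M) < 1
        · have hL : LocD K M a N θ (pr c) := ⟨hG, hpow, hInd, (hpr c).1, (hpr c).2.1,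
            fun h => (hq (pr c) (hpr c).1 h).2⟩
          have hB : ∀ j, v.1 (pt θ β (nn j)) ≤ ⨆ l, v.1 (pt θ β (nn l)) := fun j =>
            ciSup_ge (fun l => v.1 (pt θ β (nn l))) j
          have hBpos : 0 < ⨆ l, v.1 (pt θ β (nn l)) :=
            (v.1.pos (hpt0 (nn ⟨0, hR⟩))).trans_le (hB ⟨0, hR⟩)
          have h1 := hCIP K M r a N θ (pr c) hL β hβ v hv (φ c) (δ c) (hpr c).2.2.1
            (hpr c).2.2.2.1 ((hpr c).2.2.2.2 v hv) R nn y hy1 t hjets _ hBpos hB
          refine h1.trans (mul_le_mul_of_nonneg_left ?_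
            (Real.rpow_nonneg (apply_nonneg _ _) _))
          obtain ⟨l₀, hl₀⟩ := exists_eq_ciSup_of_finite (f := fun l => v.1 (pt θ β (nn l)))
          rw [← hl₀]
          have h2 := ciSup_ge (fun l => v.1 (pt θ β (nn l) ^ pr c)) l₀
          simp only [map_pow] at h2 ⊢
          exact h2
        · have hv1 : v.1 ((pr c : ℕ) : M) = 1 := le_antisymm (fp_nat_le v _) (not_lt.1 hv)
          rw [hv1, Real.one_rpow, one_mul]
          have hB : ∀ j, v.1 (pt θ β (nn j) ^ pr c) ≤ ⨆ l, v.1 (pt θ β (nn l) ^ pr c) := fun j =>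
            ciSup_ge (fun l => v.1 (pt θ β (nn l) ^ pr c)) j
          refine fp_sum_le v _ _ _ ((apply_nonneg _ _).trans (hB ⟨0, hR⟩)) fun j _ => ?_
          rw [map_mul]
          calc v.1 (algebraMap K M (φ c (y j))) * v.1 (pt θ β (nn j) ^ pr c)
              ≤ 1 * v.1 (pt θ β (nn j) ^ pr c) :=
                mul_le_mul_of_nonneg_right (hy2 j) (apply_nonneg _ _)
            _ ≤ _ := by rw [one_mul]; exact hB j)
    hinj'
  -- the ranks
  set D : ℝ := (Module.finrank ℚ M : ℝ) with hD
  have hDpos : 0 < D := by rw [hD]; exact_mod_cast Module.finrank_pos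
  set f : ℕ → ℝ := fun b => (Module.finrank K (KerB φB YB b) : ℝ) with hf
  have hmono : ∀ b : ℕ, f (b + 1) ≤ f b := by
    intro b
    have h1 : KerB φB YB (b + 1) ≤ KerB φB YB b := fun x hx b' hb' => hx b' (by omega)
    simp only [hf]
    exact_mod_cast Submodule.finrank_mono h1
  have hf0 : f 0 = R := by
    have h1 : KerB φB YB 0 = ⊤ := by
      rw [eq_top_iff]
      intro x _ b' hb'
      exact absurd hb' (Nat.not_lt_zero _)
    simp only [hf]
    rw [h1, finrank_top, Module.finrank_fin_fun]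
  have hfk : f k₁ = Module.finrank K (JK K t (pt θ β) nn) := by
    have h1 : KerB φB YB k₁ = JK K t (pt θ β) nn := by
      ext x
      rw [hJK]
      constructor
      · intro hx b
        exact hx (Fin.castAdd s b) (by simp)
      · intro hx b' hb'
        have h2 : b' = Fin.castAdd s ⟨b', hb'⟩ := by ext; simp
        rw [h2]
        exact hx _
    simp only [hf]
    rw [h1]
  have hfs : f (k₁ + s) = 0 := by
    have h1 : KerB φB YB (k₁ + s) = ⊥ := by
      rw [eq_bot_iff]
      intro x hx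
      refine (Submodule.mem_bot K).2 (hinj' x ?_)
      funext b
      exact hx b b.2
    simp only [hf]
    rw [h1, finrank_bot, Nat.cast_zero]
  have hcost1 : ∀ b : Fin k₁, logHeight (ZB (Fin.castAdd s b)) / D + Real.log (XB (Fin.castAdd s b)) +
      (∑ᶠ v, Real.log (ϖB (Fin.castAdd s b) v)) / D ≤ t * Real.log X₀ + h₀ := by
    intro b
    have h1 : logHeight (ZB (Fin.castAdd s b)) / D ≤ h₀ := by
      rw [div_le_iff₀ hDpos]
      have : ZB (Fin.castAdd s b) = fun j => pt θ β (nn j) := by
        simp only [ZB, Fin.append_left]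
      rw [this]
      exact hh₀
    have h2 : ∑ᶠ v, Real.log (ϖB (Fin.castAdd s b) v) =
        -(D * ∑ i, (e b i.succ : ℝ) * Real.log (N i)) := by
      have h3 : ∀ v : FinitePlace M, Real.log (ϖB (Fin.castAdd s b) v) =
          ∑ i, (e b i.succ : ℝ) * Real.log (v.1 ((N i : ℕ) : M)) := by
        intro v
        simp only [ϖB, Fin.append_left]
        rw [Real.log_prod fun i _ => (pow_pos (v.1.pos (hNM i)) _).ne']
        exact Finset.sum_congr rfl fun i _ => Real.log_pow _ _
      rw [finsum_congr h3, finsum_sum_comm]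
      · rw [Finset.mul_sum, ← Finset.sum_neg_distrib]
        refine Finset.sum_congr rfl fun i _ => ?_
        rw [← mul_finsum, fp_log_sum (N i) (hG.pos i)]
        ring
      · intro i _
        refine Set.Finite.subset (fp_supp (M := M) (N i) (hG.pos i)) ?_
        intro v hv
        simp only [Function.mem_support] at hv ⊢
        exact fun h => hv (by rw [h, mul_zero])
    have h4 : Real.log (XB (Fin.castAdd s b)) =
        (e b 0 : ℝ) * Real.log X₀ + ∑ i, (e b i.succ : ℝ) * (Real.log (N i) + Real.log X₀) := by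
      simp only [XB, Fin.append_left]
      rw [Real.log_mul (pow_pos hX₀pos _).ne' (Finset.prod_pos fun i _ =>
        pow_pos (mul_pos (hNpos i) hX₀pos) _).ne', Real.log_pow,
        Real.log_prod fun i _ => (pow_pos (mul_pos (hNpos i) hX₀pos) _).ne']
      congr 1
      refine Finset.sum_congr rfl fun i _ => ?_
      rw [Real.log_pow, Real.log_mul (hNpos i).ne' hX₀pos.ne']
    have h5 : ((e b 0 : ℝ) + ∑ i, (e b (Fin.succ i) : ℝ)) * Real.log X₀ ≤ t * Real.log X₀ := by
      refine mul_le_mul_of_nonneg_right ?_ (Real.log_nonneg hX₀)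
      have h6 := (he_lt b).le
      rw [Fin.sum_univ_succ] at h6
      exact_mod_cast h6
    rw [h2, h4, neg_div, mul_div_cancel_left₀ _ hDpos.ne']
    have h7 : ∑ i, (e b i.succ : ℝ) * (Real.log (N i) + Real.log X₀) =
        ∑ i, (e b i.succ : ℝ) * Real.log (N i) + (∑ i, (e b (Fin.succ i) : ℝ)) * Real.log X₀ := by
      rw [Finset.sum_mul, ← Finset.sum_add_distrib]
      exact Finset.sum_congr rfl fun i _ => by ring
    rw [h7]
    linarith
  have hcost2 : ∀ c : Fin s, logHeight (ZB (Fin.natAdd k₁ c)) / D + Real.log (XB (Fin.natAdd k₁ c)) +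
      (∑ᶠ v, Real.log (ϖB (Fin.natAdd k₁ c) v)) / D ≤ -(t * G₀ - Q * h₀) := by
    intro c
    have hh0 : 0 ≤ logHeight (fun j => pt θ β (nn j)) := logHeight_nonneg _
    have h1 : logHeight (ZB (Fin.natAdd k₁ c)) / D ≤ Q * h₀ := by
      rw [div_le_iff₀ hDpos]
      have : ZB (Fin.natAdd k₁ c) = (fun j => pt θ β (nn j)) ^ pr c := by
        funext j
        simp only [ZB, Fin.append_right, Pi.pow_apply]
      rw [this, logHeight_pow]
      calc (pr c : ℝ) * logHeight (fun j => pt θ β (nn j))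
          ≤ Q * logHeight (fun j => pt θ β (nn j)) := mul_le_mul_of_nonneg_right (hQ c) hh0
        _ ≤ Q * (h₀ * D) := mul_le_mul_of_nonneg_left hh₀ ((Nat.cast_nonneg _).trans (hQ c))
        _ = Q * h₀ * D := by ring
    have h2 : ∑ᶠ v, Real.log (ϖB (Fin.natAdd k₁ c) v) = -(D * (t * δ c * Real.log (pr c))) := by
      have h3 : ∀ v : FinitePlace M, Real.log (ϖB (Fin.natAdd k₁ c) v) =
          (t * δ c) * Real.log (v.1 ((pr c : ℕ) : M)) := by
        intro v
        simp only [ϖB, Fin.append_right]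
        rw [Real.log_rpow (v.1.pos (hprM c))]
      rw [finsum_congr h3, ← mul_finsum, fp_log_sum (pr c) (hpr c).1.pos]
      ring
    have h4 : Real.log (XB (Fin.natAdd k₁ c)) = 0 := by
      simp only [XB, Fin.append_right, Real.log_one]
    rw [h2, h4, neg_div, mul_div_cancel_left₀ _ hDpos.ne']
    have h5 : (t : ℝ) * G₀ ≤ t * δ c * Real.log (pr c) := by
      rw [mul_assoc]
      exact mul_le_mul_of_nonneg_left (hG₀ c) (Nat.cast_nonneg _)
    linarith
  have hsum : ∑ b : Fin (k₁ + s), ((Module.finrank K (KerB φB YB b) : ℝ) -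
      Module.finrank K (KerB φB YB (b + 1))) * (logHeight (ZB b) / D + Real.log (XB b) +
        (∑ᶠ v, Real.log (ϖB b v)) / D) ≤
      (R - f k₁) * (t * Real.log X₀ + h₀) - f k₁ * (t * G₀ - Q * h₀) := by
    rw [Fin.sum_univ_add]
    have h1 : ∑ b : Fin k₁, ((Module.finrank K (KerB φB YB (Fin.castAdd s b : Fin (k₁ + s))) : ℝ) -
        Module.finrank K (KerB φB YB ((Fin.castAdd s b : Fin (k₁ + s)) + 1))) *
        (logHeight (ZB (Fin.castAdd s b)) / D + Real.log (XB (Fin.castAdd s b)) +
          (∑ᶠ v, Real.log (ϖB (Fin.castAdd s b) v)) / D) ≤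
        (R - f k₁) * (t * Real.log X₀ + h₀) := by
      calc _ ≤ ∑ b : Fin k₁, (f b - f (b + 1)) * (t * Real.log X₀ + h₀) := by
            refine Finset.sum_le_sum fun b _ => ?_
            exact mul_le_mul_of_nonneg_left (hcost1 b) (sub_nonneg.2 (hmono _))
        _ = (R - f k₁) * (t * Real.log X₀ + h₀) := by
            rw [← Finset.sum_mul, Fin.sum_univ_eq_sum_range (fun b => f b - f (b + 1)),
              Finset.sum_range_sub', hf0]
    have h2 : ∑ c : Fin s, ((Module.finrank K (KerB φB YB (Fin.natAdd k₁ c : Fin (k₁ + s))) : ℝ) -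
        Module.finrank K (KerB φB YB ((Fin.natAdd k₁ c : Fin (k₁ + s)) + 1))) *
        (logHeight (ZB (Fin.natAdd k₁ c)) / D + Real.log (XB (Fin.natAdd k₁ c)) +
          (∑ᶠ v, Real.log (ϖB (Fin.natAdd k₁ c) v)) / D) ≤ -(f k₁ * (t * G₀ - Q * h₀)) := by
      calc _ ≤ ∑ c : Fin s, (f (k₁ + c) - f (k₁ + c + 1)) * (-(t * G₀ - Q * h₀)) := by
            refine Finset.sum_le_sum fun c _ => ?_
            exact mul_le_mul_of_nonneg_left (hcost2 c) (sub_nonneg.2 (hmono _))
        _ = -(f k₁ * (t * G₀ - Q * h₀)) := by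
            rw [← Finset.sum_mul,
              Fin.sum_univ_eq_sum_range (fun c => f (k₁ + c) - f (k₁ + c + 1))]
            have h3 := Finset.sum_range_sub' (fun c => f (k₁ + c)) s
            simp only [← add_assoc] at h3
            rw [h3, add_zero, hfs]
            ring
    linarith
  -- the discriminant
  have hdsk := hDSK K M r a N θ hG.nz hG.pos (fun i => by rw [hpow i, eq_ratCast])
    (fun i j h => hG.cop i j h) (fun i q hqp hqi =>
      ⟨good_of (a i) (hG.nz i) q hqp (hG.unit i q hqp hqi i) (hG.wief i q hqp hqi),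
        (hq q hqp (hqi.trans (Finset.dvd_prod_of_mem N (mem_univ i)))).1⟩)
  set P : ℝ := ∏ i, (N i : ℝ) with hP
  have hPpos : 0 < P := Finset.prod_pos fun i _ => hNpos i
  set m : ℝ := (Module.finrank K M : ℝ) with hm
  have hmpos : 0 < m := by rw [hm]; exact_mod_cast Module.finrank_pos
  set g : ℝ := (Module.finrank ℚ K : ℝ) with hg
  have hgpos : 0 < g := by rw [hg]; exact_mod_cast Module.finrank_pos
  have hDgm : D = g * m := by
    rw [hD, hg, hm]
    exact_mod_cast (Module.finrank_mul_finrank ℚ K M).symm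
  have hdK : 0 < |(discr K : ℝ)| := abs_pos.2 (by exact_mod_cast NumberField.discr_ne_zero K)
  have hlhs : Real.log P / 2 ≤ Real.log |(discr M : ℝ)| / (2 * D) -
      Real.log |(discr K : ℝ)| / (2 * g) := by
    have h1 := Real.log_le_log (by positivity) hdsk
    rw [Real.log_mul (by positivity) (by positivity), Real.log_pow, Real.log_pow, ← hD, ← hm] at h1
    have h2 : Real.log |(discr K : ℝ)| / (2 * g) = m * Real.log |(discr K : ℝ)| / (2 * D) := by
      rw [hDgm]
      field_simp
    have h3 : Real.log P / 2 = D * Real.log P / (2 * D) := by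
      field_simp
    rw [h2, h3, ← sub_nonneg]
    have h4 : Real.log |(discr M : ℝ)| / (2 * D) - m * Real.log |(discr K : ℝ)| / (2 * D) -
        D * Real.log P / (2 * D) =
        (Real.log |(discr M : ℝ)| - (m * Real.log |(discr K : ℝ)| + D * Real.log P)) / (2 * D) := by
      ring
    rw [h4]
    exact div_nonneg (by linarith) (by positivity)
  have hkpos : 0 < k₁ + s := by
    by_contra h
    have h0 : k₁ + s = 0 := by omega
    have h1 := hinj' (fun _ => 1) (by
      funext b
      exact absurd b.2 (by omega))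
    exact one_ne_zero (congrFun h1 ⟨0, hR⟩)
  set W : ℝ := (t : ℝ) ^ (r + 1) + s with hW
  have hWpos : 0 < W := by
    have h1 : ((k₁ + s : ℕ) : ℝ) ≤ W := by
      rw [hW]
      push_cast
      have : (k₁ : ℝ) ≤ (t : ℝ) ^ (r + 1) := by exact_mod_cast hk₁
      linarith
    have h2 : (0 : ℝ) < ((k₁ + s : ℕ) : ℝ) := by exact_mod_cast hkpos
    linarith
  have hlog : Real.log (((k₁ + s : ℕ) : ℝ) * m) ≤ Real.log (W * (m / P)) + Real.log P := by
    rw [← Real.log_mul (by positivity) hPpos.ne']
    refine Real.log_le_log (mul_pos (by exact_mod_cast hkpos) hmpos) ?_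
    have h1 : W * (m / P) * P = W * m := by field_simp
    rw [h1]
    refine mul_le_mul_of_nonneg_right ?_ hmpos.le
    rw [hW]
    push_cast
    have : (k₁ : ℝ) ≤ (t : ℝ) ^ (r + 1) := by exact_mod_cast hk₁
    linarith
  have hηD : logHeight G / D ≤ η := by
    rw [div_le_iff₀ hDpos]
    exact hη
  have hRpos : (0 : ℝ) < R := by exact_mod_cast hR
  have hh₀' : 0 ≤ h₀ := by
    have h1 : 0 ≤ logHeight (fun j => pt θ β (nn j)) := logHeight_nonneg _
    exact (mul_nonneg_iff_of_pos_right hDpos).1 (h1.trans hh₀)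
  have hWnn : 0 ≤ t * Real.log X₀ + h₀ :=
    add_nonneg (mul_nonneg (Nat.cast_nonneg _) (Real.log_nonneg hX₀)) hh₀'
  have hJ : (R : ℝ) - f k₁ ≤ dJ := by
    rw [hfk, sub_le_iff_le_add]
    exact_mod_cast hdJ
  have h1 : (R : ℝ) * (Real.log P / 2) ≤ R * (Real.log (((k₁ + s : ℕ) : ℝ) * m) / 2 + logHeight G / D) +
      ((R - f k₁) * (t * Real.log X₀ + h₀) - f k₁ * (t * G₀ - Q * h₀)) :=
    (mul_le_mul_of_nonneg_left hlhs hRpos.le).trans (hmain.trans (by gcongr))
  have h2 : (R : ℝ) * (Real.log (((k₁ + s : ℕ) : ℝ) * m) / 2 + logHeight G / D) ≤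
      R * ((Real.log (W * (m / P)) + Real.log P) / 2 + η) := by
    refine mul_le_mul_of_nonneg_left ?_ hRpos.le
    linarith
  have h3 : ((R : ℝ) - dJ) * (t * G₀ - Q * h₀) ≤ f k₁ * (t * G₀ - Q * h₀) :=
    mul_le_mul_of_nonneg_right (by linarith) hpos
  have h4 : (R - f k₁) * (t * Real.log X₀ + h₀) ≤ dJ * (t * Real.log X₀ + h₀) :=
    mul_le_mul_of_nonneg_right hJ hWnn
  have h5 : (R : ℝ) * ((Real.log (W * (m / P)) + Real.log P) / 2 + η) =
      R * (Real.log (W * (m / P)) / 2 + η) + R * (Real.log P / 2) := by ring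
  have h6 : ((∏ i, N i : ℕ) : ℝ) = P := by rw [hP]; push_cast; rfl
  rw [h6]
  linarith

end Pool.Agent.H64.GG
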