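import Pool.Agent.H90.REM.GI
import Pool.Agent.H90.REM.FLT
import Pool.Agent.H90.REM.LSK
import Pool.Agent.H90.REM.QM
import Pool.Agent.H81.REM.GIU
import Pool.Agent.H81.REM.SLK
import Pool.Agent.H86.REM.LTV
import Pool.Agent.H86.REM.DSK
import Pool.Agent.H86.REM.CYD
import Pool.Agent.H49.REM.LTF
import Pool.Agent.H49.REM.TOW
import Pool.Agent.H50.REM.EIS
import Pool.Agent.H51.REM.EMB
import Pool.Agent.H52.REM.BEX
import Pool.Agent.H52.REM.BLE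
import Pool.Agent.H52.REM.EMK
import Pool.Agent.H52.REM.FIB
import Pool.Agent.H52.REM.GQ
import Pool.Agent.H52.REM.HAD
import Pool.Agent.H52.REM.LBD
import Pool.Agent.H52.REM.PIE
import Pool.Agent.H69.REM.DKG

set_option autoImplicit false

/-!
# MP_c65535_nt, good radicals, all degrees: assembly of the volume part
-/

namespace Pool.Agent.H64.GG.Vol

open Pool.Agent.H26.REM

theorem aHAD : T_HAD := Pool.Agent.H52.REM.pf_HAD
theorem aGCH : T_GCH := Pool.Agent.H52.REM.pf_GCH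
theorem aBEX : T_BEX := Pool.Agent.H52.REM.pf_BEX
theorem aBLE : T_BLE := Pool.Agent.H52.REM.pf_BLE aGCH
theorem aFIB : T_FIB := Pool.Agent.H52.REM.pf_FIB aHAD aGCH
theorem aGQ : T_GQ := Pool.Agent.H52.REM.pf_GQ aHAD aGCH
theorem aLBD : T_LBD := Pool.Agent.H52.REM.pf_LBD aHAD aGCH aBEX
theorem aDKG : T_DKG := Pool.Agent.H69.REM.pf_DKG
theorem aEMB : T_EMB := Pool.Agent.H51.REM.pf_EMB
theorem aEMK : T_EMK := Pool.Agent.H52.REM.pf_EMK aEMB
theorem aQM : T_QM := Pool.Agent.H90.REM.pf_QM aGQ aBEX aBLE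
theorem aLSK : T_LSK := Pool.Agent.H90.REM.pf_LSK aQM aBEX aBLE aLBD
theorem aLTF : T_LTF := Pool.Agent.H49.REM.pf_LTF
theorem aLTV : T_LTV := Pool.Agent.H86.REM.pf_LTV aLTF
theorem aSLK : T_SLK := Pool.Agent.H81.REM.pf_SLK aLSK aLTF aLTV aEMB aBEX aBLE
theorem aFLT : T_FLT := Pool.Agent.H90.REM.pf_FLT aBEX aBLE aGQ aEMB aEMK
theorem aGIU : T_GIU := Pool.Agent.H81.REM.pf_GIU aBLE aFIB aDKG
theorem aGI : T_GI := Pool.Agent.H90.REM.pf_GI aGIU aFLT aSLK aBEX aEMK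
theorem aPIE : T_PIE := Pool.Agent.H52.REM.pf_PIE
theorem aEIS : T_EIS := Pool.Agent.H50.REM.pf_EIS
theorem aTOW : T_TOW := Pool.Agent.H49.REM.pf_TOW
theorem aDSK : T_DSK := Pool.Agent.H86.REM.pf_DSK aPIE aEIS aTOW
theorem aCYD : T_CYD := Pool.Agent.H86.REM.pf_CYD

end Pool.Agent.H64.GG.Vol
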