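import Pool.Agent.H69.GG.APX
import Pool.Agent.H1.RGD.BRG
import Pool.Agent.H62.GG.CI1
import Pool.Agent.H62.GG.CI2
import Pool.Agent.H46.GG.CIP
import Pool.Agent.H29.GG.CIQ
import Pool.Agent.H29.GG.CNJ
import Pool.Agent.H54.GG.CNV
import Pool.Agent.H1.RGD.CYK
import Pool.Agent.H29.GG.DEGZ
import Pool.Agent.H79.RGD.FROG
import Pool.Agent.H69.GG.GAUS
import Pool.Agent.H7.GG.GTP
import Pool.Agent.H41.GG.HRD
import Pool.Agent.H79.RGD.HTV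
import Pool.Agent.H64.GG.INA
import Pool.Agent.H35.GG.INQ
import Pool.Agent.H36.GG.JKD
import Pool.Agent.H54.GG.KAB
import Pool.Agent.H59.GG.KER
import Pool.Agent.H17.GG.LED
import Pool.Agent.H59.GG.LVN
import Pool.Agent.H46.GG.LVR
import Pool.Agent.H60.GG.MAING
import Pool.Agent.H67.GG.MAX
import Pool.Agent.H29.GG.MINP
import Pool.Agent.H35.GG.MXB
import Pool.Agent.H59.GG.MXE
import Pool.Agent.H60.GG.NRV
import Pool.Agent.H35.GG.NUG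
import Pool.Agent.H60.GG.PIL
import Pool.Agent.H69.GG.RAMT
import Pool.Agent.H75.GG.REDP
import Pool.Agent.H29.GG.REM
import Pool.Agent.H97.GG.RLQ
import Pool.Agent.H79.RGD.RNKG
import Pool.Agent.H7.GG.SHF
import Pool.Agent.H41.GG.STF
import Pool.Agent.H7.GG.STG
import Pool.Agent.H60.GG.TOR
import Pool.Agent.H1.RGD.TRG
import Pool.Agent.H17.GG.UNF
import Pool.Agent.H67.GG.UNV
import Pool.Agent.H64.GG.Vol
import Pool.Agent.H29.LG.All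

set_option autoImplicit false

/-!
# MP_c65535_nt, good radicals, all degrees: assembly
-/

namespace Pool.Agent.H64.GG

open Pool.Agent.H24.RD Pool.Agent.H23.RDD Pool.Agent.H29.RQ Pool.Agent.H29.SX Pool.Agent.H29.LG

theorem gAPX : T_APX := Pool.Agent.H69.GG.pf_APX 
theorem gBRG : T_BRG := Pool.Agent.H1.RGD.pf_BRG 
theorem gKER : T_KER := Pool.Agent.H59.GG.pf_KER 
theorem gGAUS : T_GAUS := Pool.Agent.H69.GG.pf_GAUS 
theorem gCI1 : T_CI1 := Pool.Agent.H62.GG.pf_CI1 gKER gGAUS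
theorem gLED : T_LED := Pool.Agent.H17.GG.pf_LED 
theorem gCI2 : T_CI2 := Pool.Agent.H62.GG.pf_CI2 gLED
theorem gPIL : T_PIL := Pool.Agent.H60.GG.pf_PIL 
theorem gTRG : T_TRG := Pool.Agent.H1.RGD.pf_TRG gPIL
theorem gMXE : T_MXE := Pool.Agent.H59.GG.pf_MXE aVB aRES
theorem gUNV : T_UNV := Pool.Agent.H67.GG.pf_UNV aUNK aRS
theorem gMXB : T_MXB :=
  Pool.Agent.H35.GG.pf_MXB gTRG gMXE gUNV aEXTP aVB
theorem gMAX : T_MAX :=
  Pool.Agent.H67.GG.pf_MAX gTRG gMXB gAPX aRS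
theorem gSHF : T_SHF := Pool.Agent.H7.GG.pf_SHF 
theorem gCIP : T_CIP :=
  Pool.Agent.H46.GG.pf_CIP gMAX gCI1 gCI2 gSHF
theorem gCIQ : T_CIQ :=
  Pool.Agent.H29.GG.pf_CIQ gMAX gCI1 gCI2 gLED gSHF
theorem gCNJ : T_CNJ := Pool.Agent.H29.GG.pf_CNJ 
theorem gCNV : T_CNV := Pool.Agent.H54.GG.pf_CNV 
theorem gCYK : T_CYK := Pool.Agent.H1.RGD.pf_CYK Vol.aTOW Vol.aCYD
theorem gDEGZ : T_DEGZ := Pool.Agent.H29.GG.pf_DEGZ gMXE gCYK aEXTP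
theorem gFROG : T_FROG := Pool.Agent.H79.RGD.pf_FROG aFRN aEXTP
theorem gGTP : T_GTP := Pool.Agent.H7.GG.pf_GTP 
theorem gHRD : T_HRD := Pool.Agent.H41.GG.pf_HRD aHB
theorem gNRV : T_NRV := Pool.Agent.H60.GG.pf_NRV 
theorem gHTV : T_HTV := Pool.Agent.H79.RGD.pf_HTV aHA aHB gNRV
theorem gINA : T_INA :=
  Pool.Agent.H64.GG.pf_INA Vol.aGI Vol.aDSK gCIQ gCIP
theorem gJKD : T_JKD := Pool.Agent.H36.GG.pf_JKD 
theorem gINQ : T_INQ :=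
  Pool.Agent.H35.GG.pf_INQ gINA gCYK gHTV gGTP gJKD gHRD gNRV
theorem gKAB : T_KAB := Pool.Agent.H54.GG.pf_KAB 
theorem gREDP : T_REDP := Pool.Agent.H75.GG.pf_REDP 
theorem gUNF : T_UNF := Pool.Agent.H17.GG.pf_UNF aUNK aRS aEXTP
theorem gRAMT : T_RAMT := Pool.Agent.H69.GG.pf_RAMT aEXTP
theorem gSTF : T_STF :=
  Pool.Agent.H41.GG.pf_STF aRS gBRG gUNF gKAB gRAMT gCYK aWLD aTAME aNORK
theorem gMINP : T_MINP := Pool.Agent.H29.GG.pf_MINP 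
theorem gREM : T_REM := Pool.Agent.H29.GG.pf_REM 
theorem gSTG : T_STG :=
  Pool.Agent.H7.GG.pf_STG gSTF gMINP gREM gCNJ gDEGZ
theorem gRLQ : T_RLQ := Pool.Agent.H97.GG.pf_RLQ 
theorem gTOR : T_TOR := Pool.Agent.H60.GG.pf_TOR 
theorem gRNKG : T_RNKG :=
  Pool.Agent.H79.RGD.pf_RNKG aSFTM gRLQ gTOR gNRV aHB
theorem gNUG : T_NUG := Pool.Agent.H35.GG.pf_NUG 
theorem gLVR : T_LVR :=
  Pool.Agent.H46.GG.pf_LVR gSTG gFROG gRNKG gINQ gNUG aPRMS gCNV aHB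
theorem gLVN : T_LVN := Pool.Agent.H59.GG.pf_LVN gREDP gLVR aHB
theorem gMAING : T_MAING := Pool.Agent.H60.GG.pf_MAING gLVN aHB

end Pool.Agent.H64.GG
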