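import Pool.Agent.H29.LG.Targets

set_option autoImplicit false

/-!
# MP_c65535_nt, good radicals, all degrees: definitions

Lower bounds for heights relative to the fields `ℚ(ζ_m, a_1^(1/N_1), ..., a_r^(1/N_r))` where `m`,
`N_1`, ..., `N_r` are pairwise coprime and the levels are good, uniformly in the field.
-/

namespace Pool.Agent.H64.GG

open NumberField Height Finset Polynomial Pool.Agent.H24.RD Pool.Agent.H23.RDD Pool.Agent.H29.RQ
  Pool.Agent.H29.SX Pool.Agent.H29.LG

/-- An algebraic closure of the rational numbers. -/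
abbrev Om : Type := AlgebraicClosure ℚ

/-- The cyclotomic field. -/
noncomputable def CY (m : ℕ) : IntermediateField ℚ Om :=
  IntermediateField.adjoin ℚ {z | z ^ m = 1}

/-- The field generated by the radicals. -/
noncomputable def FT {r : ℕ} (θ : Fin r → Om) : IntermediateField ℚ Om :=
  IntermediateField.adjoin ℚ (Set.range θ)

/-- The level field `ℚ(ζ_m, θ_1, ..., θ_r)`. -/
noncomputable def GF {r : ℕ} (θ : Fin r → Om) (m : ℕ) : IntermediateField ℚ Om :=
  IntermediateField.adjoin ℚ ({z | z ^ m = 1} ∪ Set.range θ)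

/-- Good systems of levels: the `N i` are pairwise coprime, and every prime divisor `q` of `N i` is
prime to all the `a j` and divides `(a i) ^ (q - 1) - 1` only once. -/
structure GoodLv {r : ℕ} (a : Fin r → ℚ) (N : Fin r → ℕ) : Prop where
  nz : ∀ i, a i ≠ 0
  pos : ∀ i, 0 < N i
  cop : ∀ i j, i ≠ j → (N i).Coprime (N j)
  unit : ∀ (i : Fin r) (q : ℕ), q.Prime → q ∣ N i → ∀ j, padicValRat q (a j) = 0
  wief : ∀ (i : Fin r) (q : ℕ), q.Prime → q ∣ N i → padicValRat q (a i ^ (q - 1) - 1) = 1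

/-- The elements which are integral at all the places above `p`. -/
def PInt (K : Type) [Field K] [NumberField K] (p : ℕ) (c : K) : Prop :=
  ∀ v : FinitePlace K, v.1 (p : K) < 1 → v.1 c ≤ 1

/-- `p` is unramified in `K`. -/
def Unr (K : Type) [Field K] [NumberField K] (p : ℕ) : Prop :=
  ∀ v : FinitePlace K, v.1 (p : K) < 1 → ∀ x : K, x ≠ 0 → ∃ n : ℤ, v.1 x = v.1 (p : K) ^ n

/-- The monomials of degree less than `N i` in `θ i` are linearly independent over `K`. -/
def Ind (K : Type) {M : Type} [Field K] [Field M] [Algebra K M] {r : ℕ} (θ : Fin r → M)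
    (N : Fin r → ℕ) : Prop :=
  LinearIndependent K (fun j : (i : Fin r) → Fin (N i) => ∏ i, θ i ^ (j i : ℕ))

/-- The coefficients are integral at the place `w`. -/
def Itg {K M : Type} [Field K] [Field M] [Algebra K M] (w : AbsoluteValue M ℝ) {σ : Type}
    (F : MvPolynomial σ K) : Prop :=
  ∀ n, w (algebraMap K M (F.coeff n)) ≤ 1

/-- The local situation at a prime `p`: radicals of `p`-adic units of good levels over a field `K`,
and if `p` divides a level then `p` is unramified in `K`. -/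
structure LocD (K M : Type) [Field K] [NumberField K] [Field M] [NumberField M] [Algebra K M]
    {r : ℕ} (a : Fin r → ℚ) (N : Fin r → ℕ) (θ : Fin r → M) (p : ℕ) : Prop where
  good : GoodLv a N
  pow : ∀ i, θ i ^ N i = algebraMap ℚ M (a i)
  ind : Ind K θ N
  prime : p.Prime
  unit : ∀ i, padicValRat p (a i) = 0
  ram : p ∣ ∏ i, N i → Unr K p

/-- The generators of the ideal of a point: `g` and `X_i ^ N_i - c_i`. -/
noncomputable def fam {K : Type} [Field K] {r : ℕ} (N : Fin r → ℕ) (c : Fin r → K)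
    (g : MvPolynomial (Fin (r + 1)) K) : Fin (r + 1) → MvPolynomial (Fin (r + 1)) K :=
  Fin.cons g (fun i => MvPolynomial.X i.succ ^ N i - MvPolynomial.C (c i))

/-- The logarithmic jets of a polynomial at a point. -/
noncomputable def JJ {K M : Type} [Field K] [Field M] [Algebra K M] {m : ℕ} (P : Fin m → M)
    (κ : Fin m → ℕ) (F : MvPolynomial (Fin m) K) : M :=
  ∑ n ∈ F.support,
    algebraMap K M (F.coeff n) * ((∏ i, ((n i : ℕ) : M) ^ κ i) * ∏ i, P i ^ n i)

/-- The logarithmic jets of the Laurent polynomial with coefficients `x j` and exponents `nn j`. -/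
noncomputable def JL {K M : Type} [Field K] [Field M] [Algebra K M] {r R : ℕ} (θ : Fin r → M)
    (β : M) (nn : Fin R → Fin (r + 1) → ℤ) (κ : Fin (r + 1) → ℕ) (x : Fin R → K) : M :=
  ∑ j, algebraMap K M (x j) * (jc M κ (nn j) * pt θ β (nn j))

/-- `Φ` acts on `K` like a Frobenius substitution at `p`. -/
def FrQ (K : IntermediateField ℚ Om) (p : ℕ) (δ : ℝ) (Φ : Om ≃ₐ[ℚ] Om) : Prop :=
  (∀ z, z ∈ K ↔ Φ z ∈ K) ∧ ∀ (M : IntermediateField ℚ Om) [NumberField M], K ≤ M →
    ∀ w : FinitePlace M, w.1 (p : M) < 1 → ∀ x x' : M, (x : Om) ∈ K → (x' : Om) = Φ (x : Om) →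
      w.1 x' = w.1 x ∧ (w.1 x ≤ 1 → w.1 (x' - x ^ p) ≤ w.1 (p : M) ^ δ)

/-- The conjugates of `(θ, β)` over `K` are conjugates over `L`. -/
def SameC (K L : IntermediateField ℚ Om) {r : ℕ} (θ : Fin r → Om) (β : Om) : Prop :=
  ∀ σ : Om ≃ₐ[ℚ] Om, (∀ z ∈ K, σ z = z) →
    ∃ τ : Om ≃ₐ[ℚ] Om, (∀ z ∈ L, τ z = z) ∧ (∀ i, τ (θ i) = σ (θ i)) ∧ τ β = σ β

/-- The norm on the exponents. -/
noncomputable def nrmV (r : ℕ) (lam : ℝ) (H : Fin r → ℝ) (ξ : Fin r → ℝ) (a : Fin (r + 1) → ℤ) :
    ℝ :=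
  |(a 0 : ℝ)| * lam + ∑ i, H i * |(a i.succ : ℝ) - a 0 * ξ i|

/-- The number of conjugates of `β` over `L`. -/
noncomputable def cc (L : IntermediateField ℚ Om) (β : Om) : ℕ :=
  {y : Om | ∃ σ : Om ≃ₐ[ℚ] Om, (∀ z ∈ L, σ z = z) ∧ σ β = y}.ncard

/-- `α` is a product of a reduced number with at most `d` conjugates over the level field and of an
element of the division group. -/
def RepQ {r : ℕ} (a : Fin r → ℚ) (θ : Fin r → Om) (m d : ℕ) (α : Om) : Prop :=
  ∃ β : Om, β ≠ 0 ∧ Cj ℚ Om (GF θ m) d β ∧ Red ℚ Om (GF θ m) β ∧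
    ∃ g ∈ Dv ℚ Om a, α = β * g

/-- The bound for the ramification. -/
noncomputable def dlt (d p : ℕ) : ℝ :=
  Real.log p / (2 * Real.log (d * p) + 1 + Real.log p)

/-- One plus the height of `a`. -/
noncomputable def BB (a : ℚ) : ℝ :=
  1 + absLogHeight₁ (algebraMap ℚ Om a)

end Pool.Agent.H64.GG
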