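import Pool.Agent.H64.GG.Defs

set_option autoImplicit false

/-!
# Facts on finite places
-/

namespace Pool.Agent.H64.GG

open NumberField Height Finset Polynomial

section aux

variable {M : Type} [Field M] [NumberField M]

theorem fp_nonarch (v : FinitePlace M) : IsNonarchimedean v.1 := fun x y => v.add_le x y

theorem fp_nat_le (v : FinitePlace M) (n : ℕ) : v.1 (n : M) ≤ 1 :=
  (fp_nonarch v).apply_natCast_le_one

theorem fp_int_le (v : FinitePlace M) (n : ℤ) : v.1 (n : M) ≤ 1 :=
  (fp_nonarch v).apply_intCast_le_one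

theorem fp_integral (v : FinitePlace M) (x : M) (hx : IsIntegral ℤ x) : v.1 x ≤ 1 := by
  have h := FinitePlace.norm_le_one M v.maximalIdeal (⟨x, hx⟩ : 𝓞 M)
  rw [FinitePlace.norm_embedding_eq] at h
  exact h

theorem fp_sum_le (v : FinitePlace M) {ι : Type} (s : Finset ι) (f : ι → M) (B : ℝ) (hB : 0 ≤ B)
    (h : ∀ i ∈ s, v.1 (f i) ≤ B) : v.1 (∑ i ∈ s, f i) ≤ B := by
  classical
  induction s using Finset.induction_on with
  | empty => simpa using hB
  | insert i s hi ih =>
    rw [Finset.sum_insert hi]
    refine (fp_nonarch v _ _).trans (max_le (h i (Finset.mem_insert_self i s)) ?_)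
    exact ih fun j hj => h j (Finset.mem_insert_of_mem hj)

theorem fp_prime (v : FinitePlace M) (n : ℕ) (hn : 0 < n) (h : v.1 (n : M) ≠ 1) :
    ∃ q, q.Prime ∧ q ∣ n ∧ v.1 (q : M) < 1 := by
  by_contra hcon
  push Not at hcon
  apply h
  have key : ∀ m : ℕ, 0 < m → m ∣ n → v.1 (m : M) = 1 := by
    intro m
    induction m using Nat.recOnMul with
    | zero => intro h0; exact absurd h0 (lt_irrefl 0)
    | one => intro _ _; simp
    | prime p hp => intro _ hpn; exact le_antisymm (fp_nat_le v p) (hcon p hp hpn)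
    | mul a b ha hb =>
      intro hab hdvd
      have ha0 : 0 < a := Nat.pos_of_ne_zero fun h => by simp [h] at hab
      have hb0 : 0 < b := Nat.pos_of_ne_zero fun h => by simp [h] at hab
      rw [Nat.cast_mul, map_mul, ha ha0 ((dvd_mul_right a b).trans hdvd),
        hb hb0 ((dvd_mul_left b a).trans hdvd), mul_one]
  exact key n hn dvd_rfl

theorem fp_supp (n : ℕ) (hn : 0 < n) :
    (Function.support fun v : FinitePlace M => Real.log (v.1 (n : M))).Finite := by
  have h0 : (n : M) ≠ 0 := by exact_mod_cast hn.ne'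
  have h := FinitePlace.hasFiniteMulSupport h0
  refine Set.Finite.subset h ?_
  intro v hv
  simp only [Function.mem_support, Function.mem_mulSupport] at hv ⊢
  intro h1
  apply hv
  have : v.1 (n : M) = 1 := h1
  rw [this, Real.log_one]

theorem fp_log_sum (n : ℕ) (hn : 0 < n) : ∑ᶠ v : FinitePlace M, Real.log (v.1 (n : M)) =
    -(Module.finrank ℚ M * Real.log n) := by
  have h0 : (n : M) ≠ 0 := by exact_mod_cast hn.ne'
  have hfin : (Function.mulSupport fun v : FinitePlace M => v (n : M)).Finite :=
    FinitePlace.hasFiniteMulSupport h0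
  have h1 := FinitePlace.prod_eq_inv_abs_norm (K := M) h0
  rw [finprod_eq_prod_of_mulSupport_subset (s := hfin.toFinset) _ (by simp)] at h1
  rw [finsum_eq_sum_of_support_subset (s := hfin.toFinset) _ (by
    intro v hv
    simp only [Function.mem_support, Set.Finite.coe_toFinset, Function.mem_mulSupport] at hv ⊢
    intro h2
    apply hv
    have : v.1 (n : M) = 1 := h2
    rw [this, Real.log_one])]
  have h2 : ∑ v ∈ hfin.toFinset, Real.log (v.1 (n : M)) =
      Real.log (∏ v ∈ hfin.toFinset, v (n : M)) := by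
    rw [Real.log_prod]
    · rfl
    · intro v _
      exact (FinitePlace.pos_iff.2 h0).ne'
  rw [h2, h1, Rat.cast_inv, Real.log_inv]
  have h3 : (Algebra.norm ℚ) (n : M) = (n : ℚ) ^ Module.finrank ℚ M := by
    have := Algebra.norm_algebraMap (R := ℚ) (S := M) (n : ℚ)
    rwa [map_natCast] at this
  rw [h3]
  push_cast
  rw [abs_of_nonneg (by positivity), Real.log_pow]

end aux

end Pool.Agent.H64.GG
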