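import Pool.Agent.H64.GG.Defs

set_option autoImplicit false

/-!
# MP_c65535_nt, good radicals, all degrees: targets, local algebra
-/

namespace Pool.Agent.H64.GG

open NumberField Height Finset Polynomial Pool.Agent.H24.RD Pool.Agent.H23.RDD Pool.Agent.H29.RQ
  Pool.Agent.H29.SX Pool.Agent.H29.LG

/-! ## B. Integral elements and radicals -/

/-- PIL: an element is integral at all places above `p` if and only if a multiple by an integer
prime to `p` is integral. -/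
def T_PIL : Prop := ∀ (M : Type) [Field M] [NumberField M] (p : ℕ), p.Prime → ∀ z : M,
  PInt M p z ↔ ∃ k : ℕ, ¬ p ∣ k ∧ IsIntegral ℤ ((k : M) * z)

/-- TRG: coordinates with respect to the radicals, up to the level. -/
def T_TRG : Prop := ∀ (K M : Type) [Field K] [NumberField K] [Field M] [NumberField M]
  [Algebra K M] (r : ℕ) (a : Fin r → ℚ) (N : Fin r → ℕ) (θ : Fin r → M) (p : ℕ), p.Prime →
  (∀ i, a i ≠ 0) → (∀ i, 0 < N i) → (∀ i, padicValRat p (a i) = 0) →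
  (∀ i, θ i ^ N i = algebraMap ℚ M (a i)) → Ind K θ N → Module.finrank K M = ∏ i, N i →
  ∀ z : M, PInt M p z → ∃ c : ((i : Fin r) → Fin (N i)) → K,
    (∀ j, PInt K p ((∏ i, N i : ℕ) * c j)) ∧
    z = ∑ j, algebraMap K M (c j) * ∏ i, θ i ^ (j i : ℕ)

/-- MXE: an element which generates the wild ramification. -/
def T_MXE : Prop := ∀ (M : Type) [Field M] [NumberField M] (r : ℕ) (a : Fin r → ℚ)
  (N : Fin r → ℕ) (θ : Fin r → M), GoodLv a N → (∀ i, θ i ^ N i = algebraMap ℚ M (a i)) →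
  ∀ (p : ℕ) (i : Fin r) (k : ℕ), p.Prime → 1 ≤ k → p ^ k ∣ N i → ¬ p ^ (k + 1) ∣ N i →
  ∃ f : ℕ, ∀ w : FinitePlace M, w.1 (p : M) < 1 →
    w.1 (θ i - θ i ^ (p ^ k * p ^ f)) ^ (p ^ k) = w.1 (p : M)

/-- UNV: the part of the field of radicals which is unramified at `p`. -/
def T_UNV : Prop := ∀ (K M : Type) [Field K] [NumberField K] [Field M] [NumberField M]
  [Algebra K M] (r : ℕ) (a : Fin r → ℚ) (N : Fin r → ℕ) (θ : Fin r → M) (p : ℕ),
  LocD K M a N θ p → ∀ (i : Fin r) (k : ℕ), 1 ≤ k → p ^ k ∣ N i → ¬ p ^ (k + 1) ∣ N i →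
  ∀ w : FinitePlace M, w.1 (p : M) < 1 →
  ∀ x ∈ IntermediateField.adjoin K (insert (θ i ^ (p ^ k)) {z | ∃ l, l ≠ i ∧ z = θ l}), x ≠ 0 →
  ∃ n : ℤ, w.1 x = w.1 (p : M) ^ n

/-- MXB: coordinates with respect to the radicals, at a prime which divides the level. -/
def T_MXB : Prop := ∀ (K M : Type) [Field K] [NumberField K] [Field M] [NumberField M]
  [Algebra K M] (r : ℕ) (a : Fin r → ℚ) (N : Fin r → ℕ) (θ : Fin r → M) (p : ℕ),
  LocD K M a N θ p → p ∣ ∏ i, N i → Module.finrank K M = ∏ i, N i →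
  ∀ z : M, PInt M p z → ∃ c : ((i : Fin r) → Fin (N i)) → K, (∀ j, PInt K p (c j)) ∧
    z = ∑ j, algebraMap K M (c j) * ∏ i, θ i ^ (j i : ℕ)

/-- APX: an element which is a unit at one place and small at the other places above `p`. -/
def T_APX : Prop := ∀ (M : Type) [Field M] [NumberField M] (p : ℕ), p.Prime →
  ∀ w : FinitePlace M, w.1 (p : M) < 1 →
  ∃ s : M, PInt M p s ∧ w.1 s = 1 ∧ ∀ w' : FinitePlace M, w'.1 (p : M) < 1 → w' ≠ w → w'.1 s < 1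

/-- MAX: the elements of the field of radicals which are integral at `w` are quotients of
polynomials in the radicals, with denominators which are units at `w`. -/
def T_MAX : Prop := ∀ (K M : Type) [Field K] [NumberField K] [Field M] [NumberField M]
  [Algebra K M] (r : ℕ) (a : Fin r → ℚ) (N : Fin r → ℕ) (θ : Fin r → M) (p : ℕ),
  LocD K M a N θ p → ∀ w : FinitePlace M, w.1 (p : M) < 1 →
  ∀ b ∈ IntermediateField.adjoin K (Set.range θ), w.1 b ≤ 1 →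
  ∃ u s : MvPolynomial (Fin r) K, Itg w.1 u ∧ Itg w.1 s ∧ w.1 (MvPolynomial.aeval θ s) = 1 ∧
    b * MvPolynomial.aeval θ s = MvPolynomial.aeval θ u

/-! ## C. The complete intersection lemma -/

/-- KER: the relations of the radicals. -/
def T_KER : Prop := ∀ (K M : Type) [Field K] [Field M] [Algebra K M] (w : AbsoluteValue M ℝ),
  IsNonarchimedean w → ∀ (r : ℕ) (N : Fin r → ℕ) (c : Fin r → K) (θ : Fin r → M),
  (∀ i, 0 < N i) → (∀ i, θ i ^ N i = algebraMap K M (c i)) → (∀ i, w (θ i) ≤ 1) → Ind K θ N →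
  ∀ G : MvPolynomial (Fin r) K, Itg w G → MvPolynomial.aeval θ G = 0 →
  ∃ H : Fin r → MvPolynomial (Fin r) K, (∀ i, Itg w (H i)) ∧
    G = ∑ i, H i * (MvPolynomial.X i ^ N i - MvPolynomial.C (c i))

/-- GAUS: the Gauss lemma for an absolute value. -/
def T_GAUS : Prop := ∀ (M : Type) [Field M] (w : AbsoluteValue M ℝ), IsNonarchimedean w →
  ∀ g h : M[X], (∀ k, w (g.coeff k) ≤ 1) → (∃ k, w (g.coeff k) = 1) →
  (∀ k, w ((g * h).coeff k) ≤ 1) → ∀ k, w (h.coeff k) ≤ 1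

/-- CI1: the ideal of the point is locally generated by `r + 1` polynomials. -/
def T_CI1 : Prop := ∀ (K M : Type) [Field K] [NumberField K] [Field M] [NumberField M]
  [Algebra K M] (w : FinitePlace M) (r : ℕ) (N : Fin r → ℕ) (c : Fin r → K) (θ : Fin r → M)
  (β : M), (∀ i, 0 < N i) → (∀ i, θ i ^ N i = algebraMap K M (c i)) → (∀ i, w.1 (θ i) = 1) →
  Ind K θ N → w.1 β ≤ 1 →
  (∀ b ∈ IntermediateField.adjoin K (Set.range θ), w.1 b ≤ 1 →
    ∃ u s : MvPolynomial (Fin r) K, Itg w.1 u ∧ Itg w.1 s ∧ w.1 (MvPolynomial.aeval θ s) = 1 ∧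
      b * MvPolynomial.aeval θ s = MvPolynomial.aeval θ u) →
  ∃ g : MvPolynomial (Fin (r + 1)) K, Itg w.1 g ∧
    MvPolynomial.aeval (Fin.cons β θ : Fin (r + 1) → M) g = 0 ∧
    MvPolynomial.aeval (Fin.cons β θ : Fin (r + 1) → M) (MvPolynomial.pderiv 0 g) ≠ 0 ∧
    ∀ G : MvPolynomial (Fin (r + 1)) K, Itg w.1 G →
      MvPolynomial.aeval (Fin.cons β θ : Fin (r + 1) → M) G = 0 →
      ∃ (S : MvPolynomial (Fin (r + 1)) K) (H : Fin (r + 1) → MvPolynomial (Fin (r + 1)) K),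
        Itg w.1 S ∧ w.1 (MvPolynomial.aeval (Fin.cons β θ : Fin (r + 1) → M) S) = 1 ∧
        (∀ i, Itg w.1 (H i)) ∧ S * G = ∑ i, H i * fam N c g i

/-- LED: the leading forms of the products of the generators. -/
def T_LED : Prop := ∀ (K M : Type) [Field K] [Field M] [CharZero M] [Algebra K M] (m : ℕ)
  (P : Fin m → M) (h : Fin m → MvPolynomial (Fin m) K), (∀ i, MvPolynomial.aeval P (h i) = 0) →
  ∀ (e κ : Fin m → ℕ) (H : MvPolynomial (Fin m) K),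
  (∑ i, κ i < ∑ i, e i → JJ P κ ((∏ i, h i ^ e i) * H) = 0) ∧
  (∑ i, κ i = ∑ i, e i → JJ P κ ((∏ i, h i ^ e i) * H) =
    (∏ i, ((κ i).factorial : M)) * (∏ i, (∑ l, MvPolynomial.C (JJ P (Pi.single l 1) (h i)) *
      MvPolynomial.X l) ^ e i : MvPolynomial (Fin m) M).coeff (Finsupp.equivFunOnFinite.symm κ) *
      MvPolynomial.aeval P H)

/-- CI2: the polynomials with vanishing jets are locally in the power of the ideal. -/
def T_CI2 : Prop := ∀ (K M : Type) [Field K] [NumberField K] [Field M] [NumberField M]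
  [Algebra K M] (w : FinitePlace M) (r : ℕ) (N : Fin r → ℕ) (c : Fin r → K) (θ : Fin r → M)
  (β : M), (∀ i, 0 < N i) → (∀ i, θ i ^ N i = algebraMap K M (c i)) → (∀ i, w.1 (θ i) = 1) →
  β ≠ 0 → w.1 β ≤ 1 → ∀ g : MvPolynomial (Fin (r + 1)) K, Itg w.1 g →
  MvPolynomial.aeval (Fin.cons β θ : Fin (r + 1) → M) g = 0 →
  MvPolynomial.aeval (Fin.cons β θ : Fin (r + 1) → M) (MvPolynomial.pderiv 0 g) ≠ 0 →
  (∀ G : MvPolynomial (Fin (r + 1)) K, Itg w.1 G →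
    MvPolynomial.aeval (Fin.cons β θ : Fin (r + 1) → M) G = 0 →
    ∃ (S : MvPolynomial (Fin (r + 1)) K) (H : Fin (r + 1) → MvPolynomial (Fin (r + 1)) K),
      Itg w.1 S ∧ w.1 (MvPolynomial.aeval (Fin.cons β θ : Fin (r + 1) → M) S) = 1 ∧
      (∀ i, Itg w.1 (H i)) ∧ S * G = ∑ i, H i * fam N c g i) →
  ∀ (T : ℕ) (F : MvPolynomial (Fin (r + 1)) K), Itg w.1 F →
  (∀ κ : Fin (r + 1) → ℕ, ∑ i, κ i < T → JJ (Fin.cons β θ : Fin (r + 1) → M) κ F = 0) →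
  ∃ (S : MvPolynomial (Fin (r + 1)) K)
    (H : (Fin (r + 1) → ℕ) → MvPolynomial (Fin (r + 1)) K), Itg w.1 S ∧
    w.1 (MvPolynomial.aeval (Fin.cons β θ : Fin (r + 1) → M) S) = 1 ∧ (∀ e, Itg w.1 (H e)) ∧
    S * F = ∑ e ∈ Finset.piAntidiag univ T, (∏ i, fam N c g i ^ e i) * H e

/-- SHF: from Laurent polynomials to polynomials. -/
def T_SHF : Prop := ∀ (K M : Type) [Field K] [Field M] [CharZero M] [Algebra K M] (r R : ℕ)
  (θ : Fin r → M) (β : M) (nn : Fin R → Fin (r + 1) → ℤ) (x : Fin R → K), 0 < R → β ≠ 0 →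
  (∀ i, θ i ≠ 0) → ∃ (F : MvPolynomial (Fin (r + 1)) K) (j₀ : Fin R) (u : Fin r → ℤ),
    (∀ j, nn j₀ 0 ≤ nn j 0) ∧
    (∀ w : AbsoluteValue M ℝ, IsNonarchimedean w → (∀ j, w (algebraMap K M (x j)) ≤ 1) →
      Itg w F) ∧
    (∀ s : ℕ, (∀ κ : Fin (r + 1) → ℕ, ∑ i, κ i < s → JL θ β nn κ x = 0) →
      (∀ κ : Fin (r + 1) → ℕ, ∑ i, κ i < s → JJ (Fin.cons β θ : Fin (r + 1) → M) κ F = 0) ∧
      ∀ κ : Fin (r + 1) → ℕ, ∑ i, κ i = s → JJ (Fin.cons β θ : Fin (r + 1) → M) κ F =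
        β ^ (-nn j₀ 0) * (∏ i, θ i ^ u i) * JL θ β nn κ x) ∧
    ∀ (φ : K ≃+* K) (p : ℕ),
      MvPolynomial.eval₂ ((algebraMap K M).comp (φ : K →+* K))
        (fun i => (Fin.cons β θ : Fin (r + 1) → M) i ^ p) F =
      (β ^ (-nn j₀ 0) * ∏ i, θ i ^ u i) ^ p *
        ∑ j, algebraMap K M (φ (x j)) * pt θ β (nn j) ^ p

/-- CIQ: the jets of order `s` of a Laurent polynomial whose jets of lower order, and whose jets of
order `s` of higher order in the first variable, vanish. -/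
def T_CIQ : Prop := ∀ (K M : Type) [Field K] [NumberField K] [Field M] [NumberField M]
  [Algebra K M] (r : ℕ) (a : Fin r → ℚ) (N : Fin r → ℕ) (θ : Fin r → M) (p : ℕ),
  LocD K M a N θ p → ∀ β : M, β ≠ 0 → ∀ w : FinitePlace M, w.1 (p : M) < 1 →
  ∀ (R : ℕ) (nn : Fin R → Fin (r + 1) → ℤ) (x : Fin R → K),
  (∀ j, w.1 (algebraMap K M (x j)) ≤ 1) → ∀ κ : Fin (r + 1) → ℕ,
  (∀ κ' : Fin (r + 1) → ℕ, ∑ i, κ' i < ∑ i, κ i → JL θ β nn κ' x = 0) →
  (∀ κ' : Fin (r + 1) → ℕ, ∑ i, κ' i = ∑ i, κ i → κ 0 < κ' 0 → JL θ β nn κ' x = 0) →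
  ∀ B : ℝ, 0 < B → (∀ j, w.1 (pt θ β (nn j)) ≤ B) →
  w.1 (JL θ β nn κ x) ≤ (∏ i, w.1 ((N i : ℕ) : M) ^ κ i.succ) * B

/-- CIP: the value at the Frobenius point of a Laurent polynomial with vanishing jets. -/
def T_CIP : Prop := ∀ (K M : Type) [Field K] [NumberField K] [Field M] [NumberField M]
  [Algebra K M] (r : ℕ) (a : Fin r → ℚ) (N : Fin r → ℕ) (θ : Fin r → M) (p : ℕ),
  LocD K M a N θ p → ∀ β : M, β ≠ 0 → ∀ w : FinitePlace M, w.1 (p : M) < 1 →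
  ∀ (φ : K ≃+* K) (δ : ℝ), 0 < δ → δ ≤ 1 →
  (∀ c : K, w.1 (algebraMap K M c) ≤ 1 → w.1 (algebraMap K M (φ c)) ≤ 1 ∧
    w.1 (algebraMap K M (φ c - c ^ p)) ≤ w.1 (p : M) ^ δ) →
  ∀ (R : ℕ) (nn : Fin R → Fin (r + 1) → ℤ) (x : Fin R → K),
  (∀ j, w.1 (algebraMap K M (x j)) ≤ 1) → ∀ T : ℕ,
  (∀ κ : Fin (r + 1) → ℕ, ∑ i, κ i < T → JL θ β nn κ x = 0) →
  ∀ B : ℝ, 0 < B → (∀ j, w.1 (pt θ β (nn j)) ≤ B) →
  w.1 (∑ j, algebraMap K M (φ (x j)) * pt θ β (nn j) ^ p) ≤ w.1 (p : M) ^ (T * δ) * B ^ p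

end Pool.Agent.H64.GG
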